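import Pool.Agent.P.MP_41a2b4_ag.W.All

/-! Twisted cocycles: the curve, the transfer, and the generic family. -/

set_option autoImplicit false

namespace Pool.Agent.P.MP_41a2b4_ag.T

open PowerSeries IsLocalRing W

attribute [-instance] PowerSeries.algebraPowerSeries MvPowerSeries.algebraMvPowerSeries

section
variable {G : Type} [Group G]

/-- A cocycle with values in the polynomial ring, twisted by the character `u`. -/
def Coc {R : Type} [CommRing R] (u : G →* R) (c : G → MvPolynomial G R) : Prop :=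
  ∀ h g, c (h * g) = MvPolynomial.C (u g) * c h + MvPolynomial.rename (h * ·) (c g)

/-- A cocycle with constant values, twisted by the character `u`. -/
def Co0 {R : Type} [CommRing R] (u : G →* R) (φ : G → R) : Prop :=
  ∀ h g, φ (h * g) = u g * φ h + φ g

/-- The inverse character. -/
def ui {R : Type} [CommRing R] (u : G →* R) : G →* R where
  toFun g := u g⁻¹
  map_one' := by simp
  map_mul' a b := by rw [mul_inv_rev, map_mul, mul_comm]

theorem ui_apply {R : Type} [CommRing R] (u : G →* R) (g : G) : ui u g = u g⁻¹ := rfl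

theorem mul_ui {R : Type} [CommRing R] (u : G →* R) (g : G) : u g * ui u g = 1 := by
  rw [ui_apply, ← map_mul, mul_inv_cancel, map_one]

/-- Nontrivial subgroups have a nonzero cocycle, noncyclic subgroups have two independent ones. -/
def Coh {F : Type} [Field F] (θ : G →* F) : Prop := ∀ H : Subgroup G,
  (H ≠ ⊥ → ∃ (φ : H → F) (a : H), Co0 (θ.comp H.subtype) φ ∧ φ a ≠ 0) ∧
  (¬ IsCyclic H → ∃ (φ ψ : H → F) (a b : H), Co0 (θ.comp H.subtype) φ ∧
    Co0 (θ.comp H.subtype) ψ ∧ φ a ≠ 0 ∧ ψ a = 0 ∧ ψ b ≠ 0)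

/-- All twisted cocycles over `F` of order at least 2 and degree at most `D`. -/
def Fm {F : Type} [Field F] (θ : G →* F) (D : ℕ) : Type :=
  {c : G → MvPolynomial G F // Coc θ c ∧ Ord2 c ∧ ∀ g, (c g).totalDegree ≤ D}

/-- The combination of the cocycles `c i` with coefficients `t i`. -/
noncomputable def cmb {F I R : Type} [Field F] [Fintype I] [CommRing R] [Algebra F R]
    (t : I → R) (c : I → G → MvPolynomial G F) (g : G) : MvPolynomial G R :=
  ∑ i, MvPolynomial.C (t i) * MvPolynomial.map (algebraMap F R) (c i g)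

/-- For independent parameters, points of the curve have cyclic stabilizers, and trivial
stabilizer when the first coordinate is independent of the parameters. -/
def Gen {F I : Type} [Field F] [Fintype I] (θ : G →* F) (c : I → G → MvPolynomial G F) : Prop :=
  ∀ (Ω : Type) [Field Ω] [Algebra F Ω] (x : G → Ω) (t : I → Ω) (z : Ω) (b : G → F),
    x ≠ 0 → AlgebraicIndependent F (fun o : Option I => o.elim z t) →
    (∀ g, x g = algebraMap F Ω (θ g) * x 1 + ∑ i, t i * MvPolynomial.aeval x (c i g) +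
      z * algebraMap F Ω (b g)) →
    ∀ H : Subgroup G, (∀ h ∈ H, ∀ a, x (h * a) = x a) → IsCyclic H ∧ (z = x 1 → H = ⊥)

theorem Coc.one {R : Type} [CommRing R] {u : G →* R} {c : G → MvPolynomial G R} (hc : Coc u c) :
    c 1 = 0 := by
  have := hc 1 1
  rw [one_mul, show (fun g : G => 1 * g) = id from funext one_mul, MvPolynomial.rename_id,
    AlgHom.id_apply, map_one, map_one, one_mul] at this
  exact left_eq_add.1 this

theorem Coc.map {R S : Type} [CommRing R] [CommRing S] (φ : R →+* S) {u : G →* R} {v : G →* S}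
    (hv : ∀ g, v g = φ (u g)) {c : G → MvPolynomial G R} (h : Coc u c) :
    Coc v fun g => MvPolynomial.map φ (c g) := fun a b => by
  simp only [h a b, map_add, map_mul, MvPolynomial.map_C, MvPolynomial.map_rename, hv]

theorem curve {R : Type} [CommRing R] (m : Ideal R) (hm : IsAdicComplete m R) (u : G →* R)
    (c : G → MvPolynomial G R) (hc : Coc u c) (hs : Small (RingHom.id R) m c) :
    (∃ x : G → R⟦X⟧, (∀ g, x g ∈ nb1 m) ∧ ∀ g, x g = C (u g) * X + MvPolynomial.aeval x (c g)) ∧
    ∀ x : G → R⟦X⟧, (∀ g, x g ∈ nb1 m) → (∀ g, x g = C (u g) * X + MvPolynomial.aeval x (c g)) →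
      x 1 = X ∧ ∃ α : G →* (R⟦X⟧ ≃ₐ[R] R⟦X⟧), ∀ h g, α h (x g) = x (h * g) := by
  have hI : IsAdicComplete (nb1 m) R⟦X⟧ := ((all_CMP R).1 m hm).2
  have hH : IsHausdorff (nb1 m) R⟦X⟧ := hI.toIsHausdorff
  have hCm : ∀ r ∈ m, (PowerSeries.C r : R⟦X⟧) ∈ nb1 m := fun r hr => by
    simpa [nb1] using hr
  have hs' : Small (algebraMap R R⟦X⟧) (nb1 m) c := fun g d hd => hCm _ (hs g d hd)
  have hX : (X : R⟦X⟧) ∈ nb1 m := by simp [nb1]
  refine ⟨(all_IMP R R⟦X⟧ G _ _ c (fun g => C (u g) * X) hs').2 hI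
    fun _ => Ideal.mul_mem_left _ _ hX, fun x hx hx' => ?_⟩
  have x1 : x 1 = X := by rw [hx' 1, hc.one, map_zero, add_zero, map_one, map_one, one_mul]
  refine ⟨x1, ?_⟩
  choose a ha using fun h => (all_EVE R R⟦X⟧ (nb1 m) hI).2.2.2 (x h) (hx h)
  have aC : ∀ (φ : R⟦X⟧ →ₐ[R] R⟦X⟧) r, φ (PowerSeries.C r) = PowerSeries.C r :=
    fun φ r => φ.commutes r
  have key : ∀ h g, a h (x g) = x (h * g) := fun h => by
    refine congrFun ((all_IMP R R⟦X⟧ G _ _ c (fun g => C (u g) * x h) hs').1 hH
      (fun g => a h (x g)) (fun g => x (h * g)) (fun g => ?_) (fun g => hx _) (fun g => ?_)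
      fun g => ?_)
    · exact (all_EVU R R⟦X⟧ (nb1 m)).2.2.2.2 (a h : R⟦X⟧ →+* R⟦X⟧) m
        (fun r hr => by rw [RingHom.coe_coe, aC]; exact hCm r hr)
        (by rw [RingHom.coe_coe, ha]; exact hx h) _ (hx g)
    · rw [curve_eval, ← MvPolynomial.comp_aeval_apply, ← ha h, ← aC (a h), ← map_mul, ← map_add,
        ← hx' g]
    · have e : MvPolynomial.aeval (x ∘ fun a => h * a) (c g) =
        MvPolynomial.aeval (fun a => x (h * a)) (c g) := rfl
      have e2 : algebraMap R R⟦X⟧ (u g) = C (u g) := rfl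
      rw [curve_eval, hx' (h * g), hc h g, map_add, map_mul (MvPolynomial.aeval x),
        MvPolynomial.aeval_C, MvPolynomial.aeval_rename, e, e2, map_mul, map_mul]
      linear_combination -C (u g) * hx' h
  have ext : ∀ φ ψ : R⟦X⟧ →ₐ[R] R⟦X⟧, φ X ∈ nb1 m → φ X = ψ X → φ = ψ := fun φ ψ h1 h2 =>
    AlgHom.coe_ringHom_injective ((all_EVU R R⟦X⟧ (nb1 m)).2.2.1 φ ψ hH
      (fun r => by rw [RingHom.coe_coe, RingHom.coe_coe, aC, aC]) h1 h2)
  have a1 : a 1 = AlgHom.id R _ := ext _ _ (by rw [ha]; exact hx 1) (by rw [ha, x1]; rfl)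
  have am : ∀ h g, a (h * g) = (a h).comp (a g) := fun h g =>
    ext _ _ (by rw [ha]; exact hx _) (by rw [AlgHom.comp_apply, ha, ha, key])
  refine ⟨⟨⟨fun h => AlgEquiv.ofAlgHom (a h) (a h⁻¹) (by rw [← am, mul_inv_cancel, a1])
    (by rw [← am, inv_mul_cancel, a1]), ?_⟩, fun h g => ?_⟩, key⟩
  · ext1 f
    change a 1 f = f
    rw [a1]; rfl
  · ext1 f
    change a (h * g) f = a h (a g f)
    rw [am]; rfl

/-- The additive action twisted by an invariant character. -/
abbrev twAct {B : Type} [CommRing B] [MulSemiringAction G B] (v : G →* B)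
    (hv : ∀ h g : G, h • v g = v g) : DistribMulAction G B where
  smul g b := v g * g • b
  one_smul b := by change v 1 * (1 : G) • b = b; rw [map_one, one_mul, one_smul]
  mul_smul g h b := by
    change v (g * h) * (g * h) • b = v g * g • (v h * h • b)
    rw [smul_mul', hv, map_mul, mul_smul, mul_assoc]
  smul_zero g := by change v g * g • (0 : B) = 0; rw [smul_zero, mul_zero]
  smul_add g a b := by change v g * g • (a + b) = v g * g • a + v g * g • b; rw [smul_add, mul_add]

/-- The twisted transfer. -/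
noncomputable def tcor {B : Type} [CommRing B] [MulSemiringAction G B] (v : G →* B)
    (S : Subgroup G) [Fintype (G ⧸ S)] (m : G → B) (g : G) : B :=
  ∑ x : G ⧸ S, v x.out * x.out • (m (x.out⁻¹ * g) - m x.out⁻¹)

theorem tr1 [Finite G] {B : Type} [CommRing B] [MulSemiringAction G B] (v : G →* B)
    (hv : ∀ h g : G, h • v g = v g) (S : Subgroup G) [Fintype (G ⧸ S)] (m : G → B)
    (hm : ∀ t ∈ S, ∀ a b, v t * t • (m b - m a) = m (t * b) - m (t * a)) (h g : G) :
    tcor v S m (h * g) = tcor v S m h + v h * h • tcor v S m g := by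
  have := (@all_TR G B _ _ _ (twAct v hv) m).1 S hm h g
  simp only [@cor_eq G _ _ B _ (twAct v hv)] at this
  exact this

theorem tr2 [Finite G] {B : Type} [CommRing B] [MulSemiringAction G B] (v : G →* B)
    (hv : ∀ h g : G, h • v g = v g) (s : G) (m : G → B)
    (hm : ∀ a b, v s * s • (m b - m a) = m (s * b) - m (s * a)) :
    ∀ t ∈ Subgroup.zpowers s, ∀ a b, v t * t • (m b - m a) = m (t * b) - m (t * a) :=
  (@all_TR G B _ _ _ (twAct v hv) m).2 s hm

theorem bc {F : Type} [Field F] [Finite G] (θ : G →* F) (D : ℕ) (K : Type) [Field K] [Algebra F K]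
    {u : G →* K} (hu : ∀ g, u g = algebraMap F K (θ g)) (x : G → K) (c : G → MvPolynomial G K)
    (hc : Coc u c) (ho : Ord2 c) (hd : ∀ g, (c g).totalDegree ≤ D) :
    (fun g => MvPolynomial.eval x (c g)) ∈
      Submodule.span K (Set.range fun i : Fm θ D => fun g => MvPolynomial.aeval x (i.1 g)) := by
  classical
  have := Fintype.ofFinite G
  let e := Module.Basis.ofVectorSpace F K
  let A := Finset.univ.biUnion fun g : G =>
    (c g).support.biUnion fun m => (e.repr ((c g).coeff m)).support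
  have hA : ∀ g m, (e.repr ((c g).coeff m)).support ⊆ A := fun g m a ha => by
    refine Finset.mem_biUnion.2 ⟨g, Finset.mem_univ g, Finset.mem_biUnion.2 ⟨m, ?_, ha⟩⟩
    exact MvPolynomial.mem_support_iff.2 fun h => by simp [h] at ha
  have co : ∀ l : K →ₗ[F] F, Coc θ fun g => bc_co l (c g) := fun l h g => by
    ext m
    obtain ⟨d, rfl⟩ := Finsupp.mapDomain_surjective (M := ℕ) (mul_left_surjective h) m
    rw [MvPolynomial.coeff_add, MvPolynomial.coeff_rename_mapDomain _ (mul_right_injective h),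
      MvPolynomial.coeff_C_mul, bc_coeff, bc_coeff, bc_coeff, hc h g, MvPolynomial.coeff_add,
      MvPolynomial.coeff_rename_mapDomain _ (mul_right_injective h), map_add,
      MvPolynomial.coeff_C_mul, hu, ← Algebra.smul_def, map_smul, smul_eq_mul]
  let f : _ → Fm θ D := fun a => ⟨fun g => bc_co (e.coord a) (c g), co _,
    fun g m hm => by rw [bc_coeff, ho g m hm, map_zero], fun g => (bc_deg _ _).trans (hd g)⟩
  have key : (fun g => MvPolynomial.eval x (c g)) =
      ∑ a ∈ A, e a • fun g => MvPolynomial.aeval x ((f a).1 g) := by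
    funext g
    conv_lhs => rw [bc_sum e A (c g) (hA g)]
    simp only [map_sum, map_mul, MvPolynomial.eval_C, MvPolynomial.eval_map, Finset.sum_apply,
      Pi.smul_apply, smul_eq_mul, MvPolynomial.aeval_def, f]
  rw [key]
  exact Submodule.sum_mem _ fun a _ => Submodule.smul_mem _ _ (Submodule.subset_span ⟨f a, rfl⟩)

theorem fm_finite {F : Type} [Field F] [Finite F] [Finite G] (θ : G →* F) (D : ℕ) :
    Finite (Fm θ D) := by
  have : Finite (MvPolynomial.restrictTotalDegree G F D) := Module.finite_of_finite F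
  exact Finite.of_injective (β := G → MvPolynomial.restrictTotalDegree G F D)
    (fun c g => ⟨c.1 g, (MvPolynomial.mem_restrictTotalDegree _ _ _).2 (c.2.2.2 g)⟩)
    fun a b h => Subtype.ext (funext fun g => congrArg Subtype.val (congrFun h g))

open Classical in
theorem int [Fintype G] (K : Type) [Field K] (u : G →* K) (x : G → K) (hx : x ≠ 0)
    (H : Subgroup G) (hH : ∀ g, g ∈ H ↔ ∀ a, x (g * a) = x a) :
    (∀ g₀, g₀ ∉ H → ∃ c : G → MvPolynomial G K, Coc u c ∧ Ord2 c ∧
      (∀ g, (c g).totalDegree ≤ Fintype.card G * (Fintype.card G + 2)) ∧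
      ∀ g, MvPolynomial.eval x (c g) = if g * g₀⁻¹ ∈ H then 1 else 0) ∧
    (∀ χ : H → K, Co0 (u.comp H.subtype) χ → ∃ c : G → MvPolynomial G K, Coc u c ∧ Ord2 c ∧
      (∀ g, (c g).totalDegree ≤ Fintype.card G * (Fintype.card G + 2)) ∧
      ∀ t : H, MvPolynomial.eval x (c t) = χ t) := by
  have dC : ∀ (a : K) (P : MvPolynomial G K), (MvPolynomial.C a * P).totalDegree ≤ P.totalDegree :=
    fun a P => (MvPolynomial.totalDegree_mul _ _).trans (by simp)
  refine ⟨fun g₀ h₀ => ?_, fun χ hχ => ?_⟩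
  · obtain ⟨b, b1, b2, b3⟩ := int_b hx hH g₀
    refine ⟨fun g => MvPolynomial.rename (g * ·) b - MvPolynomial.C (u g) * b, fun h g => ?_,
      int_ord fun g => sub_mem (int_ren b1 g) (Ideal.mul_mem_left _ _ b1), fun g => ?_,
      fun g => ?_⟩
    · simp only [map_sub, map_mul, MvPolynomial.rename_C, MvPolynomial.rename_rename,
        Function.comp_def, mul_assoc]
      ring
    · exact (MvPolynomial.totalDegree_sub _ _).trans (max_le
        ((MvPolynomial.totalDegree_rename_le _ _).trans (b2.trans (Nat.le_mul_of_pos_left _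
          Fintype.card_pos))) ((dC _ _).trans (b2.trans (Nat.le_mul_of_pos_left _
          Fintype.card_pos))))
    · have h1 := b3 1
      simp only [one_mul, inv_mem_iff, h₀, if_false] at h1
      rw [map_sub, MvPolynomial.eval_rename, map_mul, h1, mul_zero, sub_zero]
      exact b3 g
  obtain ⟨b, b1, b2, b3⟩ := int_b hx hH 1
  let := renAct G K
  have sm : ∀ (g : G) (P : MvPolynomial G K), g • P = MvPolynomial.rename (g * ·) P :=
    fun _ _ => rfl
  obtain ⟨φ, φ1, hφ⟩ : ∃ φ : G → K, φ 1 = 0 ∧ ∀ (t : H) g, φ (t * g) = ui u t * (χ t + φ g) := by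
    suffices ∃ φ : G → K, ∀ (t : H) g, φ (t * g) = ui u t * (χ t + φ g) by
      obtain ⟨φ, h⟩ := this
      exact ⟨fun g => φ g - ui u g * φ 1, by simp, fun t g => by
        beta_reduce; rw [h, map_mul]; ring⟩
    have h1 : ∀ g : G, g * ((g⁻¹ : G) : G ⧸ H).out ∈ H := fun g => by
      simpa using QuotientGroup.eq.1 (QuotientGroup.out_eq' ((g⁻¹ : G) : G ⧸ H)).symm
    refine ⟨fun g => ui u (g * ((g⁻¹ : G) : G ⧸ H).out) * χ ⟨_, h1 g⟩, fun t g => ?_⟩
    have h2 : (((t * g)⁻¹ : G) : G ⧸ H) = (g⁻¹ : G) := QuotientGroup.eq.2 (by simp)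
    have h3 : (⟨_, h1 (t * g)⟩ : H) = t * ⟨_, h1 g⟩ :=
      Subtype.ext (by simp only [h2]; exact mul_assoc _ _ _)
    have h4 := hχ t ⟨_, h1 g⟩
    have h5 := mul_ui u (g * ((g⁻¹ : G) : G ⧸ H).out)
    beta_reduce
    rw [h3, h4, h2, mul_assoc (t : G), map_mul (ui u) (t : G)]
    change _ * (u (g * _) * _ + _) = _
    linear_combination ui u t * χ t * h5
  obtain ⟨f, f1, f2, f3, f4⟩ : ∃ f : MvPolynomial G K, f ∈ MvPolynomial.idealOfVars G K ^ 2 ∧
      f.totalDegree ≤ Fintype.card G * (Fintype.card G + 2) ∧ (∀ t ∈ H, t • f = f) ∧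
      ∀ g : G, MvPolynomial.eval x (g • f) = if g ∈ H then 1 else 0 := by
    refine ⟨∏ t : H, (t : G) • b, Ideal.prod_mem _ (Finset.mem_univ 1) (int_ren b1 _), ?_,
      fun t ht => ?_, fun g => ?_⟩
    · refine (MvPolynomial.totalDegree_finsetProd _ _).trans ((Finset.sum_le_sum fun t _ =>
        (MvPolynomial.totalDegree_rename_le _ _).trans b2).trans ?_)
      rw [Finset.sum_const, Finset.card_univ, smul_eq_mul]
      exact Nat.mul_le_mul_right _ (Fintype.card_subtype_le _)
    · rw [Finset.smul_prod']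
      exact Fintype.prod_equiv (Equiv.mulLeft (⟨t, ht⟩ : H)) _ _ fun s => (mul_smul _ _ _).symm
    · have h1 : ∀ t : H, MvPolynomial.eval x (g • (t : G) • b) = if g ∈ H then 1 else 0 :=
        fun t => by
          rw [← mul_smul, sm, MvPolynomial.eval_rename]
          simpa [H.mul_mem_cancel_right t.2, Function.comp_def] using b3 (g * t)
      rw [Finset.smul_prod', map_prod, Finset.prod_congr rfl fun t _ => h1 t]
      split_ifs <;> simp
  have sc : ∀ (g : G) (u v : K), g • (f * MvPolynomial.C u - f * MvPolynomial.C v) =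
      g • f * MvPolynomial.C (u - v) := fun g u v => by
    rw [← mul_sub, ← map_sub, smul_mul', sm g (MvPolynomial.C _), MvPolynomial.rename_C]
  let := Fintype.ofFinite (G ⧸ H)
  let v : G →* MvPolynomial G K := (MvPolynomial.C : K →+* _).toMonoidHom.comp (ui u)
  have hv : ∀ g, v g = MvPolynomial.C (ui u g) := fun _ => rfl
  -- the potential is `f * C (φ g)`, where `φ (t g) - φ (t a) = ui u t * (φ g - φ a)`
  have tc := tr1 v (fun h g => by rw [hv, sm, MvPolynomial.rename_C]) H
    (fun g => f * MvPolynomial.C (φ g)) fun t ht a b => by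
      rw [sc, f3 t ht, hφ ⟨t, ht⟩, hφ ⟨t, ht⟩, hv]
      simp only [map_sub, map_mul, map_add]
      ring
  refine ⟨fun g => MvPolynomial.C (u g) * tcor v H (fun g => f * MvPolynomial.C (φ g)) g,
    fun h g => ?_, int_ord fun g => Ideal.mul_mem_left _ _ ?_, fun g => (dC _ _).trans ?_,
    fun t => ?_⟩
  · have e := congrArg (MvPolynomial.C (σ := G)) (mul_ui u h)
    rw [map_mul, map_one] at e
    beta_reduce
    rw [tc, ← sm, smul_mul', sm h (MvPolynomial.C _), MvPolynomial.rename_C, hv, map_mul, map_mul]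
    linear_combination MvPolynomial.C (u g) * h • tcor v H (fun g => f * MvPolynomial.C (φ g)) g * e
  · refine sum_mem fun y _ => Ideal.mul_mem_left _ _ ?_
    rw [sc]
    exact Ideal.mul_mem_right _ _ (int_ren f1 _)
  · refine MvPolynomial.totalDegree_finsetSum_le fun y _ => (dC _ _).trans ?_
    rw [sc, mul_comm]
    exact (dC _ _).trans ((MvPolynomial.totalDegree_rename_le _ _).trans f2)
  · have h1 := out_one_mem H
    rw [map_mul, tcor, map_sum, Finset.sum_eq_single ((1 : G) : G ⧸ H) (fun y _ hy => ?_) (by simp)]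
    · have h2 := hφ ⟨_, H.inv_mem h1⟩ t
      have h3 := hφ ⟨_, H.inv_mem h1⟩ 1
      have h4 := hφ t 1
      have h5 := mul_ui u t
      have h6 := mul_ui (ui u) ((1 : G) : G ⧸ H).out
      rw [mul_one] at h3 h4
      rw [ui_apply (ui u)] at h6
      rw [sc, map_mul, map_mul, f4, if_pos h1, one_mul, hv]
      simp only [MvPolynomial.eval_C] at h2 h3 ⊢
      rw [h2, h3, h4, φ1]
      linear_combination u t * ui u t * χ t * h6 + χ t * h5
    · rw [sc, map_mul, map_mul, f4, if_neg fun e => hy ?_, zero_mul, mul_zero]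
      rw [← QuotientGroup.out_eq' y]
      exact QuotientGroup.eq.2 (by simpa using e)

theorem genc [Finite G] {F : Type} [Field F] [Finite F] (θ : G →* F) (hG : Coh θ) :
    ∃ (I : Type) (_ : Fintype I) (c : I → G → MvPolynomial G F),
      (∀ i, Coc θ (c i)) ∧ (∀ i, Ord2 (c i)) ∧ Gen θ c := by
  classical
  have := Fintype.ofFinite G
  have hf := fm_finite θ (Fintype.card G * (Fintype.card G + 2))
  set D := Fintype.card G * (Fintype.card G + 2)
  let := Fintype.ofFinite (Fm θ D)
  refine ⟨Fm θ D, inferInstance, fun i => i.1, fun i => i.2.1, fun i => i.2.2.1, ?_⟩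
  intro Ω _ _ x t z b x0 hind heq H hH
  have hle : H ≤ genc_st x := hH
  set T : Finset Ω := insert z (Finset.univ.image x)
  set K := IntermediateField.adjoin F (T : Set Ω)
  have hx : ∀ g, x g ∈ K := fun g => IntermediateField.subset_adjoin _ _ (by simp [T])
  have hz : z ∈ K := IntermediateField.subset_adjoin _ _ (by simp [T])
  let y : G → K := fun g => ⟨x g, hx g⟩
  have ev : ∀ P : MvPolynomial G F,
      ((MvPolynomial.aeval y P : K) : Ω) = MvPolynomial.aeval x P := fun P =>
    MvPolynomial.comp_aeval_apply y K.val P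
  have tr := all_TRD F Ω T G (Fm θ D) t z (fun i g => MvPolynomial.aeval y (i.1 g)) hz hind
    fun g => by
      simp only [ev]
      rw [show ∑ i, t i * MvPolynomial.aeval x (i.1 g) =
        x g - algebraMap F Ω (θ g) * x 1 - z * algebraMap F Ω (b g) by linear_combination -heq g]
      exact sub_mem (sub_mem (hx g) (mul_mem (K.algebraMap_mem _) (hx 1)))
        (mul_mem hz (K.algebraMap_mem _))
  let u : G →* K := (algebraMap F K).toMonoidHom.comp θ
  have hbc := bc θ D K (u := u) (fun _ => rfl) y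
  obtain ⟨i1, i2⟩ := int K u y (fun e => x0 (funext fun g => congrArg Subtype.val (congrFun e g)))
    (genc_st x) fun g => forall_congr' fun a => (Subtype.ext_iff (a1 := y _) (a2 := y _)).symm
  obtain ⟨r1, r2⟩ := all_RANK G K (genc_st x) _ fun g hg => by
    obtain ⟨c, c1, c2, c3, c4⟩ := i1 g hg
    exact funext c4 ▸ hbc c c1 c2 c3
  have ch : ∀ χ : genc_st x → F, Co0 (θ.comp (genc_st x).subtype) χ → ∃ v ∈ Submodule.span K
      (Set.range fun (i : Fm θ D) g => MvPolynomial.aeval y (i.1 g)),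
      ∀ a : genc_st x, v a = 0 ↔ χ a = 0 := fun χ hχ => by
    obtain ⟨c, c1, c2, c3, c4⟩ := i2 (fun a => algebraMap F K (χ a)) fun a b => by
      beta_reduce; rw [hχ, map_add, map_mul]; rfl
    exact ⟨_, hbc c c1 c2 c3, fun a => by
      rw [c4 a]
      exact map_eq_zero (algebraMap F K)⟩
  obtain ⟨k1, k2⟩ := hG (genc_st x)
  have hc := genc_card x
  refine ⟨?_, fun e => by_contra fun n => ?_⟩
  · suffices IsCyclic (genc_st x) from Subgroup.isCyclic_of_le hle
    by_contra n
    obtain ⟨χ₁, χ₂, a, a', g1, g2, h1, h2, h3⟩ := k2 n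
    obtain ⟨v, v1, v2⟩ := ch χ₁ g1
    obtain ⟨w, w1, w2⟩ := ch χ₂ g2
    have := (Nat.succ_le_succ
      (r2 v v1 w w1 a a.2 a' a'.2 (mt (v2 a).1 h1) ((w2 a).2 h2) (mt (w2 a').1 h3))).trans
      (tr.trans (Finset.card_insert_le z (Finset.univ.image x)))
    omega
  · obtain ⟨χ, a, g1, h1⟩ := k1 fun e' => n (le_bot_iff.1 (e' ▸ hle))
    obtain ⟨v, v1, v2⟩ := ch χ g1
    have := (Nat.succ_le_succ (r1 v v1 a a.2 (mt (v2 a).1 h1))).trans (tr.trans_eq
      (congrArg Finset.card (Finset.insert_eq_of_mem (s := Finset.univ.image x) (by simp [e]))))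
    omega

end

end Pool.Agent.P.MP_41a2b4_ag.T
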