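import Pool.Agent.P.MP_41a2b4_ag.T.A

/-! The twisted family in characteristic `p`. -/

set_option autoImplicit false

namespace Pool.Agent.P.MP_41a2b4_ag.T

open PowerSeries IsLocalRing W

attribute [-instance] PowerSeries.algebraPowerSeries MvPowerSeries.algebraMvPowerSeries

section
variable {G : Type} [Group G] {F : Type} [Field F]

/-- The character after extension of scalars. -/
def ex (R : Type) [CommRing R] [Algebra F R] (θ : G →* F) : G →* R :=
  (algebraMap F R).toMonoidHom.comp θ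

theorem ex_apply (R : Type) [CommRing R] [Algebra F R] (θ : G →* F) (g : G) :
    ex R θ g = algebraMap F R (θ g) := rfl

theorem ex_ps (R : Type) [CommRing R] [Algebra F R] (θ : G →* F) (g : G) :
    algebraMap F R⟦X⟧ (θ g) = C (ex R θ g) := PowerSeries.algebraMap_apply

omit [Group G] in
theorem cmb_map {I R A B : Type} [Fintype I] [CommRing R] [Algebra F R]
    [CommRing A] [Algebra R A] [Algebra F A] [IsScalarTower F R A] [CommRing B]
    [Algebra F B] (ψ : A →ₐ[F] B) (t : I → R) (c : I → G → MvPolynomial G F)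
    (x : G → A) (g : G) : ψ (MvPolynomial.aeval x (cmb t c g)) =
      ∑ i, ψ (algebraMap R A (t i)) * MvPolynomial.aeval (fun g => ψ (x g)) (c i g) := by
  simp only [cmb, map_sum, map_mul, MvPolynomial.aeval_C, MvPolynomial.aeval_map_algebraMap,
    MvPolynomial.comp_aeval_apply]

omit [Group G] in
theorem cmb_eval {I R Ω : Type} [Fintype I] [CommRing R] [CommRing Ω]
    [Algebra F R] (ρ : R →+* Ω) (y : G → Ω) (t : I → R) (c : I → G → MvPolynomial G F) (g : G) :
    MvPolynomial.eval₂ ρ y (cmb t c g) =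
      ∑ i, ρ (t i) * MvPolynomial.eval₂ (ρ.comp (algebraMap F R)) y (c i g) := by
  simp only [cmb, MvPolynomial.eval₂_sum, MvPolynomial.eval₂_mul, MvPolynomial.eval₂_C,
    MvPolynomial.eval₂_map]

omit [Group G] in
theorem cmb_ord {I R : Type} [Fintype I] [CommRing R] [Algebra F R] (t : I → R)
    {c : I → G → MvPolynomial G F} (h : ∀ i, Ord2 (c i)) : Ord2 (cmb t c) := by
  intro g m hm
  simp only [cmb, MvPolynomial.coeff_sum, MvPolynomial.coeff_C_mul, MvPolynomial.coeff_map,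
    fun i => h i g m hm, map_zero, mul_zero, Finset.sum_const_zero]

theorem cmb_coc {I R : Type} [Fintype I] [CommRing R] [Algebra F R] (t : I → R) {θ : G →* F}
    {c : I → G → MvPolynomial G F} (h : ∀ i, Coc θ (c i)) : Coc (ex R θ) (cmb t c) := by
  intro a g
  simp only [cmb, fun i => h i a g, map_add, mul_add, Finset.sum_add_distrib, map_sum, map_mul,
    MvPolynomial.rename_C, MvPolynomial.map_rename, MvPolynomial.map_C, ex_apply, Finset.mul_sum,
    mul_left_comm]

theorem spec [Finite G] {I : Type} [Fintype I] (θ : G →* F) (c : I → G → MvPolynomial G F)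
    (hc : ∀ i, Coc θ (c i)) (ho : ∀ i, Ord2 (c i)) (hg : Gen θ c) (k : Type) [Field k] [Infinite k]
    [Algebra F k] : ∃ (t : I → k) (x : G → k⟦X⟧), (∀ g, constantCoeff (x g) = 0) ∧
      (∀ g, x g = C (ex k θ g) * X + MvPolynomial.aeval x (cmb t c g)) ∧ ∀ s, s ≠ 1 → x s ≠ X := by
  classical
  let U := MvPolynomial I F
  obtain ⟨⟨x, h0, h1⟩, h2⟩ := curve (⊥ : Ideal U) inferInstance (ex U θ) (cmb MvPolynomial.X c)
    (cmb_coc _ hc) fun g m hm => by rw [cmb_ord _ ho g m hm]; exact zero_mem _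
  obtain ⟨h3, α, hα⟩ := h2 x h0 h1
  have key : ∀ s, s ≠ 1 → x s ≠ X := fun s hs e => by
    have a1 : α s = 1 := AlgEquiv.ext fun f => DFunLike.congr_fun
      ((all_EVU U U⟦X⟧ (Ideal.span {X})).2.2.1 (α s) (RingHom.id _) inferInstance (α s).commutes
        (by rw [RingHom.coe_coe, ← h3, hα, mul_one, e, h3]; exact Ideal.mem_span_singleton_self _)
        (by rw [RingHom.coe_coe, RingHom.id_apply, ← h3, hα, mul_one, e, h3])) f
    let ι := IsScalarTower.toAlgHom F U⟦X⟧ (FractionRing U⟦X⟧)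
    have inj : Function.Injective ι := IsFractionRing.injective U⟦X⟧ (FractionRing U⟦X⟧)
    have := (hg (FractionRing U⟦X⟧) (fun g => ι (x g)) (fun i => ι (C (MvPolynomial.X i))) (ι X) 0
      (fun e => X_ne_zero (inj (h3 ▸ (congrFun e 1).trans (map_zero ι).symm)))
      (by
        refine (congrArg (fun v => AlgebraicIndependent F v) (funext fun o => ?_)).mp
          ((spec_ind F I).map' inj)
        cases o <;> rfl)
      (fun g => by
        rw [h3, Pi.zero_apply, map_zero, mul_zero, add_zero, ← ι.commutes, ex_ps]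
        conv_lhs => rw [h1 g, map_add, cmb_map, map_mul]
        rfl)
      (Subgroup.zpowers s) fun h hh a => by
        rw [← hα, show α h = 1 from Subgroup.zpowers_le_of_mem (H := α.ker) a1 hh]
        rfl).2 (by rw [h3])
    exact hs (Subgroup.zpowers_eq_bot.1 this)
  have := Fintype.ofFinite G
  choose! n hn using fun s hs => (PowerSeries.ext_iff.not.1 (key s hs) |> not_forall.1)
  obtain ⟨t, ht⟩ : ∃ t : I → k, MvPolynomial.aeval t (∏ s ∈ Finset.univ.erase 1,
      (coeff (n s) (x s) - coeff (n s) X : U)) ≠ 0 := by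
    by_contra! h
    refine (Finset.prod_ne_zero_iff (s := Finset.univ.erase 1)).2
      (fun s hs => sub_ne_zero.2 (hn s (Finset.ne_of_mem_erase hs)))
      (MvPolynomial.map_injective (algebraMap F k) (algebraMap F k).injective
        (MvPolynomial.funext fun t => ?_))
    rw [MvPolynomial.eval_map, ← MvPolynomial.aeval_def, h, map_zero, map_zero]
  let φ : U →ₐ[F] k := MvPolynomial.aeval t
  let ψ := PowerSeries.mapAlgHom φ
  have ψX : ψ X = X := map_X _
  refine ⟨t, fun g => ψ (x g), fun g => ?_, fun g => ?_, fun s hs e => ?_⟩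
  · have : constantCoeff (x g) = 0 := h0 g
    rw [← coeff_zero_eq_constantCoeff_apply] at this ⊢
    exact (coeff_map _ _ _).trans (by rw [this, map_zero])
  · beta_reduce
    have := cmb_map (AlgHom.id F k⟦X⟧) t c (fun g => ψ (x g)) g
    rw [AlgHom.id_apply] at this
    rw [this]
    conv_lhs => rw [h1 g, map_add, cmb_map, map_mul, ψX, ← ex_ps, ψ.commutes, ex_ps]
    refine congrArg _ (Finset.sum_congr rfl fun i _ => congrArg (· * _) ?_)
    exact (map_C _ _).trans (congrArg C (MvPolynomial.aeval_X t i))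
  · rw [map_prod, Finset.prod_ne_zero_iff] at ht
    refine ht s (Finset.mem_erase.2 ⟨hs, Finset.mem_univ _⟩) ?_
    rw [map_sub, sub_eq_zero]
    exact (coeff_map _ _ _).symm.trans ((congrArg _ (e.trans ψX.symm)).trans (coeff_map _ _ _))

theorem cp0 [Finite G] [Finite F] (θ : G →* F) (hG : Coh θ) (k : Type) [Field k] [Infinite k]
    [Algebra F k] :
    ∃ (c : G → MvPolynomial G k⟦X⟧) (x : G → k⟦X⟧⟦X⟧), Coc (ex k⟦X⟧ θ) c ∧
      Small (constantCoeff : k⟦X⟧ →+* k) ⊥ c ∧ (∀ g, constantCoeff (constantCoeff (x g)) = 0) ∧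
      (∀ g, x g = C (ex k⟦X⟧ θ g) * X + MvPolynomial.aeval x (c g)) ∧
      (∀ s, s ≠ 1 → PowerSeries.map (constantCoeff : k⟦X⟧ →+* k) (x s) ≠ X) ∧
      ∀ (Ω : Type) [CommRing Ω] [IsDomain Ω] (ρ : k⟦X⟧ →+* Ω), Function.Injective ρ →
        ∀ y : G → Ω, (∀ g, y g = ρ (ex k⟦X⟧ θ g) * y 1 + MvPolynomial.eval₂ ρ y (c g)) →
        ∀ H : Subgroup G, (∀ h ∈ H, ∀ a, y (h * a) = y a) → IsCyclic H := by
  classical
  obtain ⟨I, _, c', hc1, hc2, hgen⟩ := genc θ hG
  obtain ⟨t0, x0, hx1, hx2, hx3⟩ := spec θ c' hc1 hc2 hgen k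
  obtain ⟨b, hb1, hb2⟩ : ∃ b : G → F, Co0 θ b ∧ ((∀ g, b g = 0) → Subsingleton G) := by
    rcases subsingleton_or_nontrivial G with h | h
    · exact ⟨fun _ => 0, fun _ _ => by simp, fun _ => h⟩
    · obtain ⟨χ, a, h1, ha⟩ := (hG ⊤).1 top_ne_bot
      exact ⟨fun g => χ ⟨g, trivial⟩, fun h g => h1 ⟨h, trivial⟩ ⟨g, trivial⟩,
        fun h0 => (ha (h0 a)).elim⟩
  obtain ⟨T, hT, hT0⟩ := all_IND F k (Option I) fun o => o.elim 0 t0
  let c : G → MvPolynomial G k⟦X⟧ := fun g => cmb (fun i => T (some i)) c' g +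
    MvPolynomial.C (T none * algebraMap F k⟦X⟧ (b g))
  have hcoc : Coc (ex k⟦X⟧ θ) c := by
    intro a g
    simp only [c, cmb_coc _ hc1 a g, hb1 a g, map_add, map_mul, mul_add, MvPolynomial.rename_C,
      ex_apply]
    ring
  have hsm : Small (constantCoeff : k⟦X⟧ →+* k) ⊥ c := by
    intro g m hm
    simp only [c, MvPolynomial.coeff_add, cmb_ord _ hc2 g m hm, zero_add, MvPolynomial.coeff_C,
      Ideal.mem_bot]
    split_ifs
    · rw [map_mul, hT0 none]
      exact zero_mul _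
    · exact map_zero _
  have hcomp : IsAdicComplete (nb1 (⊥ : Ideal k)) k⟦X⟧ :=
    ((all_CMP k).1 ⊥ ((all_CMP k).2.2 ⊥ IsNilpotent.zero)).2
  obtain ⟨x, h1, h2⟩ := (curve _ hcomp _ c hcoc hsm).1
  have hev : ∀ (Ω : Type) [CommRing Ω] (ρ : k⟦X⟧ →+* Ω) (y : G → Ω) (g : G),
      MvPolynomial.eval₂ ρ y (c g) = ∑ i, ρ (T (some i)) *
        MvPolynomial.eval₂ (ρ.comp (algebraMap F k⟦X⟧)) y (c' i g) +
        ρ (T none) * ρ (algebraMap F k⟦X⟧ (b g)) := by
    intro Ω _ ρ y g
    simp only [c]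
    rw [MvPolynomial.eval₂_add, cmb_eval, MvPolynomial.eval₂_C, map_mul]
  refine ⟨c, x, hcoc, hsm, fun g => h1 g, h2, ?_, ?_⟩
  · have key : (fun g => PowerSeries.map (constantCoeff : k⟦X⟧ →+* k) (x g)) = x0 := by
      refine (all_IMP k k⟦X⟧ G (algebraMap k k⟦X⟧) (nb1 ⊥) (cmb t0 c') (fun g => C (ex k θ g) * X)
        (fun g m hm => by rw [cmb_ord _ hc2 g m hm, map_zero]; exact zero_mem _)).1
        hcomp.toIsHausdorff _ _ (fun g => ?_) (fun g => hx1 g) (fun g => ?_) hx2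
      · change constantCoeff (PowerSeries.map (constantCoeff : k⟦X⟧ →+* k) (x g)) = 0
        rw [← coeff_zero_eq_constantCoeff_apply, coeff_map, coeff_zero_eq_constantCoeff_apply]
        exact h1 g
      · have a1 : (PowerSeries.map (constantCoeff : k⟦X⟧ →+* k)).comp
            (algebraMap k⟦X⟧ k⟦X⟧⟦X⟧) = (algebraMap k k⟦X⟧).comp constantCoeff := by
          refine RingHom.ext fun f => ?_
          simp
        conv_lhs => rw [h2 g]
        rw [map_add, map_mul, map_C, map_X, MvPolynomial.aeval_def, MvPolynomial.eval₂_comp_left,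
          a1, hev, cmb_eval]
        simp only [RingHom.comp_apply, hT0, Option.elim, map_zero, zero_mul, add_zero]
        congr 1
    intro s hs e
    exact hx3 s hs (by rw [← key]; exact e)
  · intro Ω _ _ ρ hρ y hy H hH
    by_cases h0 : y = 0
    · have : Subsingleton G := by
        refine hb2 fun g => ?_
        have a1 := hy g
        have a2 : ∀ i, MvPolynomial.eval₂ (ρ.comp (algebraMap F k⟦X⟧)) (0 : G → Ω)
            (c' i g) = 0 := fun i => by
          rw [Pi.zero_def, MvPolynomial.eval₂_zero'_apply, MvPolynomial.constantCoeff_eq,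
            hc2 i g 0 (by simp), map_zero]
        rw [hev, h0] at a1
        simp only [a2, Pi.zero_apply, mul_zero, Finset.sum_const_zero, zero_add] at a1
        have a3 := (mul_eq_zero.1 a1.symm).resolve_left
          (fun e => hT.ne_zero none (hρ (e.trans (map_zero ρ).symm)))
        exact (ρ.comp (algebraMap F k⟦X⟧)).injective (a3.trans (map_zero _).symm)
      exact isCyclic_of_subsingleton
    · let ι := algebraMap Ω (FractionRing Ω)
      have hι : Function.Injective ι := IsFractionRing.injective _ _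
      let : Algebra F (FractionRing Ω) := ((ι.comp ρ).comp (algebraMap F k⟦X⟧)).toAlgebra
      let φ : k⟦X⟧ →ₐ[F] FractionRing Ω := ⟨ι.comp ρ, fun _ => rfl⟩
      have a1 : AlgebraicIndependent F (φ ∘ T) := hT.map' (hι.comp hρ)
      refine (hgen (FractionRing Ω) (fun g => ι (y g)) (fun i => φ (T (some i))) (φ (T none)) b
        (fun e => h0 (funext fun g => hι ((congrFun e g).trans (map_zero ι).symm))) ?_ (fun g => ?_)
        H fun h hh a => by rw [hH h hh a]).1
      · have a3 : (fun o : Option I => o.elim (φ (T none)) fun i => φ (T (some i))) = φ ∘ T :=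
          funext fun o => by cases o <;> rfl
        rw [a3]
        exact a1
      · have a2 := congrArg ι (hy g)
        rw [map_add, map_mul, MvPolynomial.eval₂_comp_left, hev, ← add_assoc] at a2
        exact a2

theorem cp_eq' {G R S : Type} [CommRing R] [CommRing S] (φ : R →+* S) {x : G → R⟦X⟧} {u : G → R}
    {v : G → S} (hv : ∀ g, v g = φ (u g)) {c : G → MvPolynomial G R}
    (h : ∀ g, x g = C (u g) * X + MvPolynomial.aeval x (c g)) (g : G) :
    PowerSeries.map φ (x g) = C (v g) * X +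
      MvPolynomial.aeval (fun a => PowerSeries.map φ (x a)) (MvPolynomial.map φ (c g)) := by
  rw [← cp_aeval, h g, map_add, map_mul, PowerSeries.map_X, map_C, hv]

theorem cp (p : ℕ) [Fact p.Prime] (k : Type) [Field k] [IsAlgClosed k] [CharP k p] [Fintype G]
    [DecidableEq G] [Finite F] [Algebra F k] (θ : G →* F) (hG : Coh θ) :
    ∃ (c : G → MvPolynomial G k⟦X⟧) (x : G → k⟦X⟧⟦X⟧)
      (α : G →* (k⟦X⟧⟦X⟧ ≃ₐ[k⟦X⟧] k⟦X⟧⟦X⟧)) (i : G →* (k⟦X⟧ ≃ₐ[k] k⟦X⟧)),
      Coc (ex k⟦X⟧ θ) c ∧ Small (constantCoeff : k⟦X⟧ →+* k) ⊥ c ∧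
      (∀ g, constantCoeff (constantCoeff (x g)) = 0) ∧
      (∀ g, x g = C (ex k⟦X⟧ θ g) * X + MvPolynomial.aeval x (c g)) ∧ (∀ g, α g X = x g) ∧
      (∀ g, i g X = PowerSeries.map (constantCoeff : k⟦X⟧ →+* k) (x g)) ∧
      Function.Injective i ∧ (∀ g, g ≠ 1 → x g ≠ X) ∧
      (∃ (r : ℕ) (w : Fin r → k⟦X⟧) (u : k⟦X⟧⟦X⟧), IsUnit u ∧ (∀ i, constantCoeff (w i) = 0) ∧
        ∏ g ∈ Finset.univ.erase (1 : G), (X - x g) = u * ∏ i, (X - PowerSeries.C (w i))) ∧
      ∀ (ev : k⟦X⟧⟦X⟧ →ₐ[k⟦X⟧] k⟦X⟧) (H : Subgroup G), (∀ h ∈ H, ev (x h) = ev X) →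
        IsCyclic H := by
  obtain ⟨c0, x0, coc, sm, cc, eqn, fa, cyc⟩ := cp0 θ hG k
  obtain ⟨τ, θi, θc, r, w, u, hu, hw, hf⟩ := all_WSP p k
      (∏ g ∈ Finset.univ.erase (1 : G), (X - x0 g)) (by
    rw [map_prod]
    refine Finset.prod_ne_zero_iff.2 fun g hg => ?_
    rw [map_sub, PowerSeries.map_X]
    exact sub_ne_zero.2 (fa g (Finset.ne_of_mem_erase hg)).symm)
  set T : k⟦X⟧ →+* k⟦X⟧ := (τ : k⟦X⟧ →+* k⟦X⟧) with hT
  have t1 : ∀ g, ex k⟦X⟧ θ g = T (ex k⟦X⟧ θ g) := fun g => by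
    rw [ex_apply, ex_ps]; exact (τ.commutes (ex k θ g)).symm
  have t2 : ∀ g, ex k θ g = constantCoeff (ex k⟦X⟧ θ g) := fun g => (constantCoeff_C _).symm
  have b0 : IsAdicComplete (⊥ : Ideal k) k := (all_CMP k).2.2 ⊥ ⟨1, pow_one _⟩
  have b1 : IsAdicComplete (nb1 (⊥ : Ideal k)) k⟦X⟧ := ((all_CMP k).1 ⊥ b0).2
  have sm1 : Small (constantCoeff : k⟦X⟧ →+* k) ⊥ fun g => MvPolynomial.map T (c0 g) :=
    fun g m hm => by
      rw [MvPolynomial.coeff_map, show constantCoeff (T _) = _ from θc _]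
      exact sm g m hm
  have cc1 : ∀ g, constantCoeff (constantCoeff (PowerSeries.map T (x0 g))) = 0 := fun g =>
    (θc _).trans (cc g)
  have e1 := cp_eq' T t1 eqn
  obtain ⟨x1, α, hα⟩ := (curve _ b1 _ _ (coc.map T t1) sm1).2 _ cc1 e1
  obtain ⟨x2, i, hi⟩ := (curve ⊥ b0 _ _ ((coc.map T t1).map constantCoeff t2) fun g m hm => by
    rw [MvPolynomial.coeff_map]
    exact sm1 g m hm).2 (fun g => PowerSeries.map constantCoeff (PowerSeries.map T (x0 g))) cc1
      (cp_eq' constantCoeff t2 e1)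
  have a1 : ∀ g, α g X = PowerSeries.map T (x0 g) := fun g => by rw [← x1, hα, mul_one]
  have a2 : ∀ g, i g X = PowerSeries.map constantCoeff (PowerSeries.map T (x0 g)) := fun g => by
    rw [← x2, hi, mul_one]
  have a3 : ∀ g, g ≠ 1 → PowerSeries.map constantCoeff (PowerSeries.map T (x0 g)) ≠ X :=
    fun g hg h => fa g hg (Eq.trans (PowerSeries.ext fun n => (θc _).symm) h)
  refine ⟨_, _, α, i, coc.map T t1, sm1, cc1, e1, a1, a2, (injective_iff_map_eq_one i).2
    fun g hg => by_contra fun h => a3 g h (by rw [← a2, hg]; rfl),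
    fun g hg h => a3 g hg (by rw [h, PowerSeries.map_X]), ⟨r, w, u, hu, hw, ?_⟩, fun ev H hH => ?_⟩
  · rw [← hf, map_prod]
    simp only [map_sub, PowerSeries.map_X]
  · refine cyc k⟦X⟧ T θi (fun a => ev (PowerSeries.map T (x0 a))) (fun g => ?_) H fun h hh a => ?_
    · rw [x1, e1 g, map_add, map_mul, MvPolynomial.comp_aeval_apply, MvPolynomial.aeval_def,
        MvPolynomial.eval₂_map, ← t1, show ev (C _) = _ from ev.commutes _]
      rfl
    · have := (all_EVU k⟦X⟧ k⟦X⟧ (nb1 (⊥ : Ideal k))).2.2.1 ev.toRingHom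
        (ev.comp (α h).toAlgHom).toRingHom b1.toIsHausdorff
        (fun r => (ev.commutes r).trans ((ev.comp (α h).toAlgHom).commutes r).symm)
        (cp_ev ev) ((hH h hh).symm.trans (congrArg ev (a1 h).symm))
      rw [← hα]
      exact (RingHom.congr_fun this _).symm

/-- Cocycles over the field generated by the values of the character. -/
theorem coh (p : ℕ) [Fact p.Prime] (k : Type) [Field k] [CharP k p] [Finite G] [Algebra F k]
    (θ : G →* F) (hk : IsPGroup p θ.ker) (h : ∀ H : Subgroup G, ¬ IsCyclic H → ∃ φ : H → k,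
      Co0 ((ex k θ).comp H.subtype) φ ∧ ∀ x : k, ∃ a : H, ex k θ a * x + φ a ≠ x) : Coh θ := by
  intro H
  have : CharP F p := (algebraMap F k).charP_iff_charP p |>.2 inferInstance
  have cb : Co0 (θ.comp H.subtype) fun a => 1 - θ a := fun a b => by
    simp only [Subgroup.coe_mul, map_mul, MonoidHom.comp_apply, Subgroup.coe_subtype]
    ring
  by_cases h1 : ∀ a : H, θ a = 1
  · have hp : IsPGroup p H := hk.to_le fun a ha => h1 ⟨a, ha⟩
    have cc : ∀ χ : H →* Multiplicative (ZMod p), ∃ φ : H → F, Co0 (θ.comp H.subtype) φ ∧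
        ∀ a, φ a = 0 ↔ χ a = 1 := fun χ =>
      ⟨fun a => ZMod.castHom (dvd_refl p) F (χ a).toAdd, fun a b => by
        simp only [map_mul, toAdd_mul, map_add, MonoidHom.comp_apply, Subgroup.coe_subtype, h1,
          one_mul], fun a => (_root_.map_eq_zero _).trans toAdd_eq_zero⟩
    obtain ⟨k1, k2⟩ := all_CHI p H hp
    refine ⟨fun n => ?_, fun n => ?_⟩
    · obtain ⟨χ, a, ha⟩ := k1 ((Subgroup.nontrivial_iff_ne_bot _).2 n)
      obtain ⟨φ, c1, c2⟩ := cc χ
      exact ⟨φ, a, c1, mt (c2 a).1 ha⟩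
    · obtain ⟨χ, χ', a, b, e1, e2, e3⟩ := k2 n
      obtain ⟨φ, c1, c2⟩ := cc χ
      obtain ⟨ψ, d1, d2⟩ := cc χ'
      exact ⟨φ, ψ, a, b, c1, d1, mt (c2 a).1 e1, (d2 a).2 e2, mt (d2 b).1 e3⟩
  obtain ⟨a, ha⟩ := not_forall.1 h1
  have ha' : 1 - θ a ≠ 0 := sub_ne_zero.2 (Ne.symm ha)
  refine ⟨fun _ => ⟨_, a, cb, ha'⟩, fun n => ?_⟩
  obtain ⟨φ, c1, c2⟩ := h H n
  have h2 : 1 - ex k θ a ≠ 0 := by
    rw [ex_apply, ← map_one (algebraMap F k), ← map_sub]
    exact (map_ne_zero _).2 ha'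
  obtain ⟨b, hb⟩ := c2 (φ a / (1 - ex k θ a))
  obtain ⟨l, hl⟩ := Module.Projective.exists_dual_ne_zero F
    (x := φ b - φ a / (1 - ex k θ a) * (1 - ex k θ b)) fun e => hb (by linear_combination e)
  refine ⟨_, fun g => l (φ g - φ a / (1 - ex k θ a) * (1 - ex k θ g)), a, b, cb, fun g g' => ?_,
    ha', by beta_reduce; rw [div_mul_cancel₀ _ h2, sub_self, map_zero], hl⟩
  beta_reduce
  rw [← smul_eq_mul (θ.comp H.subtype g'), ← map_smul, ← map_add, c1, Algebra.smul_def]
  congr 1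
  simp only [Subgroup.coe_mul, map_mul, MonoidHom.comp_apply, Subgroup.coe_subtype, ← ex_apply]
  ring

end

end Pool.Agent.P.MP_41a2b4_ag.T
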