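import Pool.Agent.P.MP_41a2b4_ag.T.A

/-! The twisted steps in characteristic zero. -/

set_option autoImplicit false

namespace Pool.Agent.P.MP_41a2b4_ag.T

open PowerSeries IsLocalRing W

attribute [-instance] PowerSeries.algebraPowerSeries MvPowerSeries.algebraMvPowerSeries

variable {G : Type} [Group G]

open MvPolynomial in
theorem tw [Finite G] {R : Type} [CommRing R] [IsDomain R] (v : G →* R) (s : G) (ξ l : R)
    (hξ : IsPrimitiveRoot ξ (orderOf s)) (hl : l ≠ 0) (hd : l ∣ ξ - v s)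
    (F : G → MvPolynomial G R) (hF : ∀ h g, MvPolynomial.C l ∣
      F (h * g) - F h - MvPolynomial.C (v h) * MvPolynomial.rename (h * ·) (F g)) :
    ∃ (φ : G → MvPolynomial G R) (γ : MvPolynomial G R), (∀ g, MvPolynomial.C l ∣ φ g - F g) ∧
      ∀ g, φ (s * g) = γ + MvPolynomial.C ξ * MvPolynomial.rename (s * ·) (φ g) := by
  obtain ⟨T, hT⟩ : ∃ T : Module.End R (MvPolynomial G R),
      ∀ x, T x = MvPolynomial.C ξ * rename (s * ·) x :=
    ⟨ξ • (rename (s * ·)).toLinearMap, fun x => by simp [MvPolynomial.smul_eq_C_mul]⟩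
  have hid : ∀ x : MvPolynomial G R, rename (fun a => a) x = x := rename_id_apply
  have hp : ∀ (i : ℕ) x, (T ^ i) x = MvPolynomial.C (ξ ^ i) * rename (s ^ i * ·) x := fun i x => by
    induction i with
    | zero => simp [hid]
    | succ i ih =>
      rw [pow_succ', Module.End.mul_apply, ih, hT, map_mul, rename_C, rename_rename, ← mul_assoc,
        ← map_mul, ← pow_succ']
      congr 3
      funext a
      simp [pow_succ', mul_assoc]
  have hn : T ^ orderOf s = 1 := LinearMap.ext fun x => by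
    simp [hp, hξ.pow_eq_one, pow_orderOf_eq_one, hid]
  have hm : ∀ (i : ℕ) x, (T ^ i) (MvPolynomial.C l * x) = MvPolynomial.C l * (T ^ i) x :=
    fun i x => by
      rw [← MvPolynomial.smul_eq_C_mul, ← MvPolynomial.smul_eq_C_mul, map_smul]
  have key : ∀ γ, MvPolynomial.C l ∣ γ - F s → ∀ r (i : ℕ),
      MvPolynomial.C l ∣ tw_orb T γ (F r) i - F (s ^ i * r) := fun γ hγ r i => by
    induction i with
    | zero => simp [tw_orb]
    | succ i ih =>
      obtain ⟨u, hu⟩ := ih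
      have h1 := hm 1 u
      rw [pow_one, ← hu, map_sub, hT (F _)] at h1
      have h2 : MvPolynomial.C l ∣ (MvPolynomial.C ξ - MvPolynomial.C (v s)) *
          rename (s * ·) (F (s ^ i * r)) := by
        refine Dvd.dvd.mul_right ?_ _
        simpa using map_dvd (MvPolynomial.C (σ := G)) hd
      have h3 := ((hγ.add (Dvd.intro _ h1.symm)).add h2).sub (hF s (s ^ i * r))
      rw [tw_succ, pow_succ', mul_assoc]
      convert h3 using 1
      ring
  obtain ⟨η, hη⟩ := key (F s) (by simp) 1 (orderOf s)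
  rw [tw_orb, hn, pow_orderOf_eq_one, one_mul, Module.End.one_apply, add_sub_cancel_right] at hη
  have h0 : (MvPolynomial.C l : MvPolynomial G R) ≠ 0 := by simpa using hl
  obtain ⟨δ, hδ⟩ := all_TN G R s ξ hξ η (by
    have h1 := tw_succ T (F s) 0 (orderOf s)
    have h2 := hm 1 η
    simp only [tw_orb, map_zero, add_zero] at h1
    rw [Finset.sum_range_succ, hn, Module.End.one_apply, add_comm, add_right_inj, hη] at h1
    rw [pow_one, ← h1] at h2
    rw [← hT]
    exact (mul_left_cancel₀ h0 h2).symm)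
  have hz : ∑ j ∈ Finset.range (orderOf s), (T ^ j) (F s - MvPolynomial.C l * δ) = 0 := by
    simp only [map_sub, hm, Finset.sum_sub_distrib]
    rw [hη, ← Finset.mul_sum, ← hδ]
    simp only [hp, sub_self]
  obtain ⟨r, i, h1, h2⟩ := tw_rep s
  refine ⟨fun g => tw_orb T (F s - MvPolynomial.C l * δ) (F (r g)) (i g),
    F s - MvPolynomial.C l * δ, fun g => ?_, fun g => ?_⟩
  · have := key (F s - MvPolynomial.C l * δ) (by simp) (r g) (i g)
    rwa [h1] at this
  · beta_reduce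
    rw [← hT, ← tw_succ, h2]
    refine tw_mod hn hz _ (pow_eq_pow_iff_modEq.1 (mul_right_cancel (b := r g) ?_))
    rw [pow_succ', mul_assoc, h1, ← h2, h1]

theorem lift {L R k : Type} [CommRing L] [CommRing R] [CommRing k] (l : R)
    (θ : L →+* R ⧸ Ideal.span {l}) (ε : L →+* k) (π : R →+* k)
    (hc : ∀ f r, θ f = Ideal.Quotient.mk _ r → π r = ε f) (u : G →* L) (Θ : G →* R)
    (hΘ : ∀ g, θ (u g) = Ideal.Quotient.mk _ (Θ g)) (c : G → MvPolynomial G L) (hcoc : Coc u c) :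
    ∃ c' : G → MvPolynomial G R, c' 1 = 0 ∧
      (∀ g, MvPolynomial.map (Ideal.Quotient.mk (Ideal.span {l})) (c' g) =
        MvPolynomial.map θ (c g)) ∧
      (∀ g, MvPolynomial.map π (c' g) = MvPolynomial.map ε (c g)) ∧
      ∀ h g, MvPolynomial.C l ∣
        c' (h * g) - MvPolynomial.C (Θ g) * c' h - MvPolynomial.rename (h * ·) (c' g) := by
  have : ∀ g, ∃ P : MvPolynomial G R, (g = 1 → P = 0) ∧
      MvPolynomial.map (Ideal.Quotient.mk (Ideal.span {l})) P = MvPolynomial.map θ (c g) := by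
    intro g
    by_cases hg : g = 1
    · exact ⟨0, fun _ => rfl, by simp [hg, hcoc.one]⟩
    · obtain ⟨P, hP⟩ := MvPolynomial.map_surjective _ Ideal.Quotient.mk_surjective
        (MvPolynomial.map θ (c g))
      exact ⟨P, fun h => absurd h hg, hP⟩
  choose c' h0 h using this
  refine ⟨c', h0 1 rfl, h, fun g => ?_, fun a g => ?_⟩
  · ext m
    have := congrArg (MvPolynomial.coeff m) (h g)
    simp only [MvPolynomial.coeff_map] at this ⊢
    exact hc _ _ this.symm
  · rw [MvPolynomial.C_dvd_iff_dvd_coeff]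
    intro m
    rw [← Ideal.mem_span_singleton, ← Ideal.Quotient.eq_zero_iff_mem, ← MvPolynomial.coeff_map,
      map_sub, map_sub, MvPolynomial.map_rename, map_mul, h, h, h, hcoc a g, map_add, map_mul,
      MvPolynomial.map_rename, MvPolynomial.map_C, MvPolynomial.map_C, hΘ]
    simp

theorem tube [Finite G] {R : Type} [CommRing R] [IsDomain R] (m : Ideal R)
    (hm : IsAdicComplete m R) (ϖ : R) (hϖ : ϖ ∈ m) (h0 : ϖ ≠ 0) (M N : ℕ) (hMN : M < N)
    (Θ : G →* R) (c : G → MvPolynomial G R) (c1 : c 1 = 0) (cs : Small (RingHom.id R) m c)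
    (hc : ∀ h g, MvPolynomial.C (ϖ ^ N) ∣
      c (h * g) - MvPolynomial.C (Θ g) * c h - MvPolynomial.rename (h * ·) (c g)) :
    ∃ (x : G → MvPowerSeries G R) (α : G →* (MvPowerSeries G R ≃ₐ[R] MvPowerSeries G R)),
      (∀ g, x g ∈ nb G m) ∧ x 1 = MvPowerSeries.X 1 ∧
      (∀ g, x g = MvPowerSeries.C (Θ g) * MvPowerSeries.X 1 + MvPolynomial.aeval x (c g) +
        MvPowerSeries.C ϖ ^ M * yv R g) ∧
      (∀ h g, α h (x g) = x (h * g)) ∧ ∀ h g, α h (MvPowerSeries.X g) ∈ nb G m := by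
  classical
  have hB := ((all_CMP R).1 m hm).1 G
  have mC : ∀ r ∈ m, (MvPowerSeries.C r : MvPowerSeries G R) ∈ nb G m := fun r hr => by
    simpa [nb] using hr
  have mX : ∀ g : G, (MvPowerSeries.X g : MvPowerSeries G R) ∈ nb G m := fun g => by simp [nb]
  have hI := fun w => all_IMP R (MvPowerSeries G R) G (algebraMap R _) (nb G m) c w
    fun g d hd => mC _ (cs g d hd)
  simp only [← MvPolynomial.aeval_def] at hI
  obtain ⟨x, x1, x2⟩ := (hI fun g => MvPowerSeries.C (Θ g) * MvPowerSeries.X 1 +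
    MvPowerSeries.C ϖ ^ M * yv R g).2 hB
    fun g => add_mem (Ideal.mul_mem_left _ _ (mX 1)) (Ideal.mul_mem_left _ _ (tube_y m g))
  have y1 : yv R (1 : G) = 0 := if_pos rfl
  have x3 : x 1 = MvPowerSeries.X 1 := by rw [x2, c1, y1]; simp
  choose r hr using hc
  have r1 : ∀ h, r h 1 = 0 := fun h => by
    have := hr h 1
    rw [mul_one, c1, map_zero, map_one, map_one, one_mul, sub_self, sub_zero, eq_comm,
      mul_eq_zero] at this
    exact this.resolve_left (MvPolynomial.C_ne_zero.2 (pow_ne_zero _ h0))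
  set v : G → G → MvPowerSeries G R := fun h g =>
    yv R (h * g) - MvPowerSeries.C (Θ g) * yv R h +
      MvPowerSeries.C ϖ ^ (N - M) * MvPolynomial.aeval x (r h g) with hv
  have v1 : ∀ h g, v h g ∈ nb G m := fun h g => add_mem (sub_mem (tube_y m _)
    (Ideal.mul_mem_left _ _ (tube_y m _)))
    (Ideal.mul_mem_right _ _ (Ideal.pow_mem_of_mem _ (mC ϖ hϖ) _ (by omega)))
  have a0 : ∀ h g, (if g = 1 then x h else v h g) ∈ nb G m := fun h g => by
    split_ifs
    exacts [x1 h, v1 h g]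
  choose a ha using fun h => (all_EVE R _ (nb G m) hB).2.2.1 G _ (a0 h)
  have aC : ∀ (φ : MvPowerSeries G R →ₐ[R] MvPowerSeries G R) (t : R),
      φ (MvPowerSeries.C t) = MvPowerSeries.C t := fun φ t => φ.commutes t
  have aX : ∀ h g, a h (MvPowerSeries.X g) ∈ nb G m := fun h g => ha h g ▸ a0 h g
  have ay : ∀ h g, a h (yv R g) = v h g := fun h g => by
    by_cases e : g = 1
    · simp [e, y1, hv, r1]
    · rw [yv, if_neg e, ha, if_neg e]
  have ae : ∀ (φ : MvPowerSeries G R →ₐ[R] MvPowerSeries G R) (P : MvPolynomial G R),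
      φ (MvPolynomial.aeval x P) = MvPolynomial.aeval (fun g => φ (x g)) P := fun φ P =>
    (MvPolynomial.comp_aeval_apply x φ P)
  have ax : ∀ h g, a h (x g) = x (h * g) := fun h => congrFun <|
    (hI fun g => MvPowerSeries.C (Θ g) * x h + MvPowerSeries.C ϖ ^ M * v h g).1 hB.toIsHausdorff _ _
      (fun g => (all_EVU R _ (nb G m)).2.2.2.1 G (a h).toRingHom m
        (fun t ht => (aC (a h) t).symm ▸ mC t ht) (aX h) _ (x1 g))
      (fun g => x1 _)
      (fun g => by
        conv_lhs => rw [x2 g]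
        rw [map_add, map_add, map_mul, map_mul, map_pow, aC, aC, ay, ha, if_pos rfl, ae])
      fun g => by
        have e1 := congrArg (MvPolynomial.aeval x) (hr h g)
        rw [map_sub, map_sub, map_mul, map_mul, MvPolynomial.aeval_rename, MvPolynomial.aeval_C,
          MvPolynomial.aeval_C, map_pow] at e1
        have e2 : (MvPowerSeries.C ϖ : MvPowerSeries G R) ^ M * MvPowerSeries.C ϖ ^ (N - M) =
            algebraMap R _ ϖ ^ N := by
          rw [← pow_add, Nat.add_sub_cancel' hMN.le]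
          rfl
        have e3 : MvPolynomial.aeval (x ∘ fun a => h * a) (c g) =
          MvPolynomial.aeval (fun a => x (h * a)) (c g) := rfl
        have e4 : algebraMap R (MvPowerSeries G R) (Θ g) = MvPowerSeries.C (Θ g) := rfl
        have e5 := x2 (h * g)
        rw [map_mul, map_mul] at e5
        rw [e4] at e1
        simp only [hv]
        linear_combination e5 - MvPowerSeries.C (Θ g) * x2 h + e1 + e3 -
          MvPolynomial.aeval x (r h g) * e2
  have uq : ∀ φ ψ : MvPowerSeries G R →ₐ[R] MvPowerSeries G R,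
      (∀ g, φ (MvPowerSeries.X g) ∈ nb G m) → (∀ g, φ (x g) = ψ (x g)) → φ = ψ := by
    intro φ ψ h1 h2
    refine AlgHom.coe_ringHom_injective ((all_EVU R _ (nb G m)).2.1 G φ ψ hB.toIsHausdorff
      (fun t => (aC φ t).trans (aC ψ t).symm) h1 fun g => ?_)
    have h3 := h2 1
    rw [x3] at h3
    by_cases e : g = 1
    · exact e ▸ h3
    have h4 := h2 g
    rw [x2 g, yv, if_neg e] at h4
    simp only [map_add, map_mul, map_pow, aC, ae, h2, h3, add_left_inj, add_right_inj] at h4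
    refine mul_left_cancel₀ (pow_ne_zero M fun e => h0 ?_) h4
    simpa using congrArg MvPowerSeries.constantCoeff e
  have am : ∀ h k, a (h * k) = (a h).comp (a k) := fun h k =>
    uq _ _ (aX _) fun g => by rw [AlgHom.comp_apply, ax, ax, ax, mul_assoc]
  have a1 : a 1 = AlgHom.id R _ := uq _ _ (aX _) fun g => by rw [ax, one_mul, AlgHom.id_apply]
  refine ⟨x, MonoidHom.mk' (fun h => AlgEquiv.ofAlgHom (a h) (a h⁻¹)
    (by rw [← am, mul_inv_cancel, a1]) (by rw [← am, inv_mul_cancel, a1])) fun h k =>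
      AlgEquiv.ext fun f => DFunLike.congr_fun (am h k) f, x1, x3, fun g => ?_, ax, aX⟩
  rw [add_right_comm]
  exact x2 g

theorem eqv [Finite G] {L R : Type} [CommRing L] [CommRing R] (ϖ₀ : L) (ϖ : R) (M : ℕ)
    (θ : L →+* R ⧸ Ideal.span {ϖ ^ M}) (hθ : θ ϖ₀ = Ideal.Quotient.mk _ ϖ) (u : G →* L)
    (Θ : G →* R) (hΘ : ∀ g, θ (u g) = Ideal.Quotient.mk _ (Θ g))
    (c₀ : G → MvPolynomial G L) (x₀ : G → L⟦X⟧) (α₀ : G →* (L⟦X⟧ ≃ₐ[L] L⟦X⟧))
    (hc₀ : Small (RingHom.id L) (Ideal.span {ϖ₀}) c₀) (hx₀ : ∀ g, x₀ g ∈ nb1 (Ideal.span {ϖ₀}))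
    (ex₀ : ∀ g, x₀ g = C (u g) * X + MvPolynomial.aeval x₀ (c₀ g)) (hα₀ : ∀ g, α₀ g X = x₀ g)
    (c : G → MvPolynomial G R) (x : G → MvPowerSeries G R)
    (α : G →* (MvPowerSeries G R ≃ₐ[R] MvPowerSeries G R))
    (hc : ∀ g, MvPolynomial.map (Ideal.Quotient.mk (Ideal.span {ϖ ^ M})) (c g) =
      MvPolynomial.map θ (c₀ g)) (hx : ∀ g, x g ∈ nb G (Ideal.span {ϖ}))
    (ex : ∀ g, x g = MvPowerSeries.C (Θ g) * MvPowerSeries.X 1 + MvPolynomial.aeval x (c g) +
      MvPowerSeries.C ϖ ^ M * yv R g) (hα : ∀ g, α g (MvPowerSeries.X 1) = x g)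
    (g : G) (a : L⟦X⟧) (b : MvPowerSeries G R)
    (hab : PowerSeries.toMvPowerSeries (1 : G) (PowerSeries.map θ a) =
        MvPowerSeries.map (Ideal.Quotient.mk (Ideal.span {ϖ ^ M})) b) :
    PowerSeries.toMvPowerSeries (1 : G) (PowerSeries.map θ (α₀ g a)) =
      MvPowerSeries.map (Ideal.Quotient.mk (Ideal.span {ϖ ^ M})) (α g b) := by
  let mk := Ideal.Quotient.mk (Ideal.span {ϖ ^ M})
  let m : Ideal (R ⧸ Ideal.span {ϖ ^ M}) := Ideal.span {mk ϖ}
  have h0 : mk (ϖ ^ M) = 0 := Ideal.Quotient.eq_zero_iff_mem.2 (Ideal.mem_span_singleton_self _)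
  have hm : IsAdicComplete m (R ⧸ Ideal.span {ϖ ^ M}) := (all_CMP _).2.2 m ⟨M, by
    rw [Ideal.span_singleton_pow, ← map_pow, h0, Ideal.zero_eq_bot, Ideal.span_singleton_eq_bot]⟩
  have hH := (((all_CMP _).1 m hm).1 G).toIsHausdorff
  let r : L⟦X⟧ →+* MvPowerSeries G (R ⧸ Ideal.span {ϖ ^ M}) :=
    (PowerSeries.toMvPowerSeries (1 : G)).toRingHom.comp (PowerSeries.map θ)
  let red : MvPowerSeries G R →+* MvPowerSeries G (R ⧸ Ideal.span {ϖ ^ M}) := MvPowerSeries.map mk
  let ρ : L →+* MvPowerSeries G (R ⧸ Ideal.span {ϖ ^ M}) := MvPowerSeries.C.comp θ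
  have rC : ∀ l, r (PowerSeries.C l) = ρ l := fun l => by
    change PowerSeries.toMvPowerSeries 1 (PowerSeries.map θ _) = _
    rw [map_C, toMvPowerSeries_C]
    rfl
  have rX : r X = MvPowerSeries.X 1 := by
    change PowerSeries.toMvPowerSeries 1 (PowerSeries.map θ _) = _
    rw [map_X, toMvPowerSeries_X]
  have hρ : ∀ l ∈ Ideal.span {ϖ₀}, ρ l ∈ nb G m := fun l hl => by
    obtain ⟨t, rfl⟩ := Ideal.mem_span_singleton'.1 hl
    change MvPowerSeries.constantCoeff (MvPowerSeries.C (θ _)) ∈ m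
    rw [MvPowerSeries.constantCoeff_C, map_mul, hθ]
    exact Ideal.mul_mem_left _ _ (Ideal.mem_span_singleton_self _)
  have hX : (MvPowerSeries.X 1 : MvPowerSeries G (R ⧸ Ideal.span {ϖ ^ M})) ∈ nb G m := by
    simp [nb]
  have h1 : ∀ g, r (x₀ g) ∈ nb G m := fun g =>
    (all_EVU L _ _).2.2.2.2 r _ (fun l hl => by rw [rC]; exact hρ l hl) (by rw [rX]; exact hX) _
      (hx₀ g)
  have h2 : (fun g => r (x₀ g)) = fun g => red (x g) := by
    refine (all_IMP L _ G ρ (nb G m) c₀ (fun g => ρ (u g) * MvPowerSeries.X 1)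
      fun g d hd => hρ _ (hc₀ g d hd)).1 hH _ _ h1 (fun g => ?_) (fun g => ?_) fun g => ?_
    · obtain ⟨t, ht⟩ := Ideal.mem_span_singleton'.1 (hx g)
      change MvPowerSeries.constantCoeff (MvPowerSeries.map mk _) ∈ m
      rw [MvPowerSeries.constantCoeff_map, ← ht, map_mul]
      exact Ideal.mul_mem_left _ _ (Ideal.mem_span_singleton_self _)
    · have e2 : r.comp (algebraMap L L⟦X⟧) = ρ := RingHom.ext rC
      conv_lhs => rw [ex₀ g]
      rw [map_add, map_mul, rC, rX, MvPolynomial.aeval_def, MvPolynomial.eval₂_comp_left, e2]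
      rfl
    · have e2 : red.comp (algebraMap R (MvPowerSeries G R)) = MvPowerSeries.C.comp mk :=
        RingHom.ext fun t => MvPowerSeries.map_C mk t
      have e3 : red (MvPowerSeries.C ϖ ^ M) = 0 := by
        rw [← map_pow]
        exact ((all_RED G R).1 _).2 _ |>.2 dvd_rfl
      conv_lhs => rw [ex g]
      rw [map_add, map_add, map_mul, map_mul, e3, zero_mul, add_zero, MvPowerSeries.map_X,
        MvPowerSeries.map_C, ← hΘ,
        MvPolynomial.aeval_def, MvPolynomial.eval₂_comp_left, e2, ← MvPolynomial.eval₂_map, hc,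
        MvPolynomial.eval₂_map]
      rfl
  have aC : ∀ t, α g (MvPowerSeries.C t) = MvPowerSeries.C t := (α g).commutes
  obtain ⟨hs, hk⟩ := (all_RED G R).1 (ϖ ^ M)
  obtain ⟨β, hβ⟩ : ∃ β : MvPowerSeries G (R ⧸ Ideal.span {ϖ ^ M}) →+*
      MvPowerSeries G (R ⧸ Ideal.span {ϖ ^ M}), ∀ b, β (red b) = red (α g b) :=
    ⟨red.liftOfSurjective hs ⟨red.comp (α g).toAlgHom.toRingHom, fun b hb => by
      obtain ⟨t, rfl⟩ := (hk b).1 hb
      refine (hk (α g _)).2 ?_
      rw [map_mul, aC]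
      exact dvd_mul_right _ _⟩, fun b => RingHom.liftOfSurjective_comp_apply _ _ _ b⟩
  have key := (all_EVU L _ (nb G m)).2.2.1 (r.comp (α₀ g).toAlgHom.toRingHom) (β.comp r) hH
    (fun l => by
      obtain ⟨t, ht⟩ := Ideal.Quotient.mk_surjective (θ l)
      have e1 : α₀ g (PowerSeries.C l) = PowerSeries.C l := (α₀ g).commutes l
      have e2 : ρ l = red (MvPowerSeries.C t) := by
        rw [MvPowerSeries.map_C, ht]
        rfl
      change r (α₀ g _) = β (r _)
      rw [e1, rC, e2, hβ, aC])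
    (by
      change r (α₀ g X) ∈ _
      rw [hα₀]
      exact h1 g)
    (by
      change r (α₀ g X) = β (r X)
      rw [hα₀, rX, ← MvPowerSeries.map_X mk, hβ, hα]
      exact congrFun h2 g)
  have := DFunLike.congr_fun key a
  change r (α₀ g a) = β (r a) at this
  change r a = red b at hab
  rw [hab, hβ] at this
  exact this

theorem cut [Finite G] {B J : Type} [CommRing B] [IsDomain B] [MulSemiringAction G B] [Fintype J]
    (ϖ : B) (hϖ : ϖ ≠ 0) (hinv : ∀ g : G, g • ϖ = ϖ) (v : G →* B) (hv : ∀ h g : G, h • v g = v g)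
    (s : J → G) (ξ Φ : J → B) (f U : B) (e M N : ℕ) (hN : M + e < N) (hf : f ≠ 0) (hU : IsUnit U)
    (hgf : ∀ g : G, ∃ u, IsUnit u ∧ g • f = u * f) (hΦ : ∀ j, s j • Φ j = ξ j * Φ j)
    (hdvd : ∀ j, f ∣ Φ j)
    (hsum : ∑ j, ∑ᶠ x : G ⧸ Subgroup.zpowers (s j), x.out • Φ j = f * ϖ ^ e * U)
    (y Y : G → B) (hY : ∀ g, Y g = v g * (ϖ ^ M * y g)) (ψ : J → G → B) (γ : J → B)
    (hy : ∀ h g, ϖ ^ N ∣ Y (h * g) - Y h - v h * h • Y g) (hψ : ∀ j g, ϖ ^ N ∣ ψ j g - Y g)
    (hψs : ∀ j g, ψ j (s j * g) = γ j + ξ j * v (s j) * s j • ψ j g) :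
    ∃ ρ : G → B, y 1 + ϖ * ρ 1 = 0 ∧
      ∀ h g : G, h • (y g + ϖ * ρ g) ∈ Ideal.span (Set.range fun a => y a + ϖ * ρ a) := by
  classical
  let _ : ∀ j, Fintype (G ⧸ Subgroup.zpowers (s j)) := fun j => Fintype.ofFinite _
  simp only [finsum_eq_sum_of_fintype] at hsum
  set m : J → G → B := fun j a => Φ j * ψ j a with hm
  have hms : ∀ j a b, v (s j) * s j • (m j b - m j a) = m j (s j * b) - m j (s j * a) :=
    fun j a b => by
      simp only [hm, smul_sub, smul_mul', hΦ, hψs]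
      ring
  have hcoc := fun j => tr1 v hv _ (m j) (tr2 v hv (s j) (m j) (hms j))
  set E : G → B := fun g => ∑ j, tcor v (Subgroup.zpowers (s j)) (m j) g with hE
  have hE1 : E 1 = 0 := by
    simp only [hE, tcor, mul_one, sub_self, smul_zero, mul_zero, Finset.sum_const_zero]
  have hEc : ∀ h g, E (h * g) = E h + v h * h • E g := fun h g => by
    simp only [hE, hcoc, Finset.sum_add_distrib, Finset.smul_sum, Finset.mul_sum]
  have hkey : ∀ g, f * ϖ ^ N ∣ E g - f * ϖ ^ e * U * Y g := fun g => by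
    rw [← hsum, hE, Finset.sum_mul, ← Finset.sum_sub_distrib]
    refine Finset.dvd_sum fun j _ => ?_
    rw [tcor, Finset.sum_mul, ← Finset.sum_sub_distrib]
    refine Finset.dvd_sum fun x _ => ?_
    have h1 : f ∣ x.out • Φ j := by
      obtain ⟨a, ha⟩ := hdvd j
      obtain ⟨u, -, hu⟩ := hgf x.out
      rw [ha, smul_mul', hu]
      exact ⟨u * x.out • a, by ring⟩
    have h2 : ϖ ^ N ∣ ψ j (x.out⁻¹ * g) - ψ j x.out⁻¹ - v x.out⁻¹ * x.out⁻¹ • Y g := by
      have := ((hψ j (x.out⁻¹ * g)).sub (hψ j x.out⁻¹)).add (hy x.out⁻¹ g)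
      convert this using 1
      ring
    have h3 := cut_smul_dvd hinv N x.out h2
    rw [smul_sub, smul_mul', smul_inv_smul, hv] at h3
    have h4 := (mul_dvd_mul h1 h3).mul_left (v x.out)
    have h5 := mul_ui v x.out
    rw [ui_apply] at h5
    convert h4 using 1
    simp only [hm, smul_sub, smul_mul']
    linear_combination x.out • Φ j * Y g * h5
  obtain ⟨k, rfl⟩ := Nat.exists_eq_add_of_lt hN
  obtain ⟨V, hV⟩ := hU.exists_right_inv
  choose t ht using hkey
  have hEq : ∀ g, E g = f * ϖ ^ (M + e) * (U * (v g * (y g + ϖ * (ui v g * V * ϖ ^ k * t g)))) :=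
    fun g => by
      have h1 := ht g
      rw [hY] at h1
      linear_combination h1 - f * ϖ ^ (M + e + k + 1) * t g * hV -
        f * ϖ ^ (M + e + k + 1) * t g * U * V * mul_ui v g
  have hne : f * ϖ ^ (M + e) ≠ 0 := mul_ne_zero hf (pow_ne_zero _ hϖ)
  have vu : ∀ g, IsUnit (v g) := fun g => (Group.isUnit g).map v
  refine ⟨fun g => ui v g * V * ϖ ^ k * t g, ?_, fun h g => ?_⟩
  · have h1 := hEq 1
    rw [hE1, map_one v, one_mul] at h1
    exact (mul_eq_zero.1 ((mul_eq_zero.1 h1.symm).resolve_left hne)).resolve_left hU.ne_zero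
  · obtain ⟨u, hu, huf⟩ := hgf h
    have h1 := hEc h g
    rw [hEq, hEq, hEq g, smul_mul', smul_mul', smul_mul', smul_mul', smul_pow', hinv, huf,
      hv] at h1
    have h2 : u * h • U * v h * v g * h • (y g + ϖ * (ui v g * V * ϖ ^ k * t g)) =
        U * (v (h * g) * (y (h * g) + ϖ * (ui v (h * g) * V * ϖ ^ k * t (h * g))) -
          v h * (y h + ϖ * (ui v h * V * ϖ ^ k * t h))) := by
      refine mul_left_cancel₀ hne ?_
      linear_combination -h1
    rw [← Ideal.unit_mul_mem_iff_mem _ (((hu.mul (cut_unit hU h)).mul (vu h)).mul (vu g)), h2]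
    exact Ideal.mul_mem_left _ _ (Ideal.sub_mem _
      (Ideal.mul_mem_left _ _ (Ideal.subset_span ⟨h * g, rfl⟩))
      (Ideal.mul_mem_left _ _ (Ideal.subset_span ⟨h, rfl⟩)))

theorem sp [Finite G] {R k : Type} [CommRing R] [CommRing k] (m : Ideal R) (π : R →+* k)
    (hπ : ∀ r ∈ m, π r = 0) (ϖ : R) (hϖ : ϖ ∈ m) (M : ℕ) (hM : 0 < M) (Θ : G →* R)
    (c : G → MvPolynomial G R) (x : G → MvPowerSeries G R) (q : MvPowerSeries G R →ₐ[R] R⟦X⟧)
    (β : G →* (R⟦X⟧ ≃ₐ[R] R⟦X⟧)) (i : G →* (k⟦X⟧ ≃ₐ[k] k⟦X⟧))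
    (hc : Small (RingHom.id R) m c) (hx : ∀ g, x g ∈ nb G m)
    (ex : ∀ g, x g = MvPowerSeries.C (Θ g) * MvPowerSeries.X 1 + MvPolynomial.aeval x (c g) +
      MvPowerSeries.C ϖ ^ M * yv R g)
    (q1 : q (MvPowerSeries.X 1) = X) (hq : ∀ g, q (MvPowerSeries.X g) ∈ nb1 m)
    (hβ : ∀ g, β g X = q (x g)) (hi : ∀ g, constantCoeff (i g X) = 0)
    (ei : ∀ g, i g X = C (π (Θ g)) * X +
      MvPolynomial.aeval (fun a => i a X) (MvPolynomial.map π (c g))) (g : G) (f : R⟦X⟧) :
    PowerSeries.map π (β g f) = i g (PowerSeries.map π f) := by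
  have hI : ∀ f : k⟦X⟧, constantCoeff f = 0 → f ∈ Ideal.span {(X : k⟦X⟧)} := fun f h =>
    Ideal.mem_span_singleton.2 (X_dvd_iff.2 h)
  let φ : MvPowerSeries G R →+* k⟦X⟧ := (PowerSeries.map π).comp q.toRingHom
  let ρ : R →+* k⟦X⟧ := PowerSeries.C.comp π
  have hφ : ∀ r, φ (MvPowerSeries.C r) = ρ r := fun r => by
    have : q (MvPowerSeries.C r) = PowerSeries.C r := q.commutes r
    change PowerSeries.map π (q _) = _
    rw [this, map_C]
    rfl
  have hρ : ∀ r ∈ m, ρ r = 0 := fun r hr => by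
    change PowerSeries.C (π r) = 0
    rw [hπ r hr, map_zero]
  have h1 : ∀ g, φ (x g) ∈ Ideal.span {(X : k⟦X⟧)} := fun g =>
    (all_EVU R k⟦X⟧ _).2.2.2.1 G φ m (fun r hr => by rw [hφ, hρ r hr]; exact zero_mem _)
      (fun a => hI _ (hπ _ (hq a))) _ (hx g)
  have h2 : (fun g => φ (x g)) = fun g => i g X := by
    refine (all_IMP R k⟦X⟧ G ρ _ c (fun g => ρ (Θ g) * X) fun g a ha => ?_).1 (sp_haus k) _ _ h1
      (fun g => hI _ (hi g)) (fun g => ?_) fun g => ?_
    · rw [hρ ((c g).coeff a) (hc g a ha)]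
      exact zero_mem _
    · have e1 : φ (MvPowerSeries.X 1) = X := by
        change PowerSeries.map π (q _) = _
        rw [q1, map_X]
      have e2 : φ.comp (algebraMap R (MvPowerSeries G R)) = ρ := RingHom.ext hφ
      conv_lhs => rw [ex g]
      rw [map_add, map_add, map_mul, map_mul, map_pow, hφ, hφ, hρ _ hϖ, zero_pow hM.ne', zero_mul,
        add_zero, e1, MvPolynomial.aeval_def, MvPolynomial.eval₂_comp_left, e2]
      rfl
    · conv_lhs => rw [ei g]
      rw [MvPolynomial.aeval_def, MvPolynomial.eval₂_map]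
      rfl
  have h3 : PowerSeries.map π (β g X) = i g X := by
    rw [hβ]
    exact congrFun h2 g
  refine DFunLike.congr_fun ((all_EVU R k⟦X⟧ _).2.2.1
    ((PowerSeries.map π).comp (β g).toAlgHom.toRingHom)
    ((i g).toAlgHom.toRingHom.comp (PowerSeries.map π)) (sp_haus k) (fun r => ?_) ?_ ?_) f
  · have e1 : β g (PowerSeries.C r) = PowerSeries.C r := (β g).commutes r
    have e2 : i g (PowerSeries.C (π r)) = PowerSeries.C (π r) := (i g).commutes (π r)
    change PowerSeries.map π (β g _) = i g (PowerSeries.map π _)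
    rw [e1, map_C, e2]
  · change PowerSeries.map π (β g X) ∈ _
    rw [h3]
    exact hI _ (hi g)
  · change PowerSeries.map π (β g X) = i g (PowerSeries.map π X)
    rw [h3, map_X]

end Pool.Agent.P.MP_41a2b4_ag.T
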