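import Pool.Agent.P.MP_41a2b4_ag.T.B
import Pool.Agent.P.MP_41a2b4_ag.T.C

/-! The construction of the lift. -/

set_option autoImplicit false

namespace Pool.Agent.P.MP_41a2b4_ag.T

open PowerSeries IsLocalRing W

attribute [-instance] PowerSeries.algebraPowerSeries MvPowerSeries.algebraMvPowerSeries

variable {G : Type} [Group G]

theorem ord_ne [Finite G] {k : Type} [Field k] (η : G →* k) (g : G) : (orderOf (η g) : k) ≠ 0 := by
  have : NeZero (orderOf (η g)) := ⟨(η.isOfFinOrder (isOfFinOrder_of_finite g)).orderOf_pos.ne'⟩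
  exact (IsPrimitiveRoot.orderOf (η g)).neZero'.ne

/-- Roots of unity of order prime to `p` lift uniquely. -/
theorem teich {k R : Type} [Field k] [CommRing R] (π : R →+* k) (hu : ∀ r, π r ≠ 0 → IsUnit r)
    (l : R) {m : ℕ} (hm : (m : k) ≠ 0) {r t : R} (h1 : l ∣ r ^ m - 1) (h2 : t ^ m = 1)
    (h3 : π r = π t) : l ∣ r - t := by
  rw [← h2, ← geom_sum₂_mul] at h1
  refine (IsUnit.dvd_mul_left (hu _ ?_)).1 h1
  simp only [map_sum, map_mul, map_pow, h3]
  rw [geom_sum₂_self]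
  refine mul_ne_zero hm (pow_ne_zero _ fun e => ?_)
  have := congrArg π h2
  rw [map_pow, e, zero_pow (fun e => hm (by simp [e])), map_one] at this
  exact zero_ne_one this

theorem prim [Finite G] {p a : ℕ} [hp : Fact p.Prime] {k R : Type} [Field k] [CharP k p]
    [CommRing R] (η : G →* k) (ha : Nat.card η.ker = p ^ a) (T : k →* R)
    (hT : Function.Injective T) {ζ : R} (hζ : IsPrimitiveRoot ζ (p ^ a)) (s : G) :
    ∃ t : ℕ, (ζ ^ t) ^ orderOf s = 1 ∧ IsPrimitiveRoot (ζ ^ t * T (η s⁻¹)) (orderOf s) := by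
  have h0 := ord_ne η s⁻¹
  have h1 : orderOf (η s⁻¹) ∣ orderOf s⁻¹ := orderOf_map_dvd η _
  have h2 : s⁻¹ ^ orderOf (η s⁻¹) ∈ η.ker := by rw [MonoidHom.mem_ker, map_pow, pow_orderOf_eq_one]
  have h3 : orderOf (s⁻¹ ^ orderOf (η s⁻¹)) ∣ p ^ a := ha ▸ η.ker.orderOf_dvd_natCard h2
  have h4 := orderOf_pow_of_dvd (fun e => h0 (by rw [e, Nat.cast_zero])) h1
  have h5 : orderOf (s⁻¹ ^ orderOf (η s⁻¹)) * orderOf (η s⁻¹) = orderOf s := by
    rw [h4, Nat.div_mul_cancel h1, orderOf_inv]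
  have h6 : (p ^ a).Coprime (orderOf (η s⁻¹)) := Nat.Coprime.pow_left _
    ((Nat.Prime.coprime_iff_not_dvd hp.out).2 (mt (CharP.cast_eq_zero_iff k p _).2 h0))
  obtain ⟨t, ht⟩ := exists_eq_mul_left_of_dvd h3
  have h7 := hζ.pow (pow_pos hp.out.pos a) ht
  refine ⟨t, by rw [← h5, pow_mul, h7.pow_eq_one, one_pow], ?_⟩
  have h8 := (Commute.all (ζ ^ t) (T (η s⁻¹))).orderOf_mul_eq_mul_orderOf_of_coprime (by
    rw [← h7.eq_orderOf, orderOf_injective T hT]
    exact h6.coprime_dvd_left h3)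
  rw [← h7.eq_orderOf, orderOf_injective T hT, h5] at h8
  exact h8 ▸ IsPrimitiveRoot.orderOf _

theorem suff (p : ℕ) [Fact p.Prime] (k : Type) [Field k] [IsAlgClosed k] [CharP k p] [Finite G]
    {F : Type} [Field F] [Finite F] [Algebra F k] (η : G →* F) (hk : IsPGroup p (ex k η).ker)
    (hG : Coh η) : WeakLift p k G := by
  classical
  let := Fintype.ofFinite G
  obtain ⟨c₀, x₀, α₀, i, hcoc, hsm, hx0, hxe, hα₀, hi, hinj, hne, hsplit, hcyc⟩ := cp p k η hG
  let act0 : MulSemiringAction G k⟦X⟧⟦X⟧ := MulSemiringAction.compHom _ α₀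
  have hs0 : ∀ (g : G) (a : k⟦X⟧⟦X⟧), g • a = α₀ g a := fun _ _ => rfl
  have hmax : maximalIdeal k⟦X⟧ = Ideal.span {X} := maximalIdeal_eq_span_X
  have hcL : IsAdicComplete (maximalIdeal k⟦X⟧) k⟦X⟧ := hmax ▸ inferInstance
  have hC0 : ∀ (g : G) (r : k⟦X⟧), g • (PowerSeries.C r : k⟦X⟧⟦X⟧) = PowerSeries.C r :=
    fun g r => (α₀ g).commutes r
  obtain ⟨J, _, s, d, j₀, h1, h2, h3, h4, h5, h6⟩ := all_PU1 G k⟦X⟧ X X_irreducible hcL hC0 (by
    obtain ⟨r, w, u, hu, hw, e⟩ := hsplit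
    refine ⟨r, w, u, hu, fun i => ?_, ?_⟩
    · rw [hmax, Ideal.mem_span_singleton, X_dvd_iff]; exact hw i
    · rw [← e, dif]
      exact Finset.prod_congr rfl fun g _ => by rw [hs0, hα₀])
    (fun ev H hH => hcyc ev H fun h hh => by rw [← hH h hh, hs0, hα₀])
  obtain ⟨q, β, c, e, hPU⟩ := all_PU2 G k⟦X⟧⟦X⟧ J (PowerSeries.C X) X (fun g => hC0 g X)
    (fun g hg => by rw [hs0, hα₀]; exact hne g hg) s d j₀ h1 h2 h3 h4 h5 h6
  obtain ⟨a, ha⟩ := IsPGroup.iff_card.1 hk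
  obtain ⟨M, hM⟩ : ∃ M, M = 2 * c + e + 1 := ⟨_, rfl⟩
  obtain ⟨N, hN⟩ : ∃ N, N = M + e + 1 := ⟨_, rfl⟩
  obtain ⟨R, _, _, _, _, _, ϖ, ζ, π, θ, hcR, hϖ, hζ, hζ1, hWinj, hWπ, hπs, hπk, hθX, hθ⟩ :=
    all_RING p k a N (by omega)
  let T : k →* R := (algebraMap (WittVector p k) R).toMonoidHom.comp (WittVector.teichmuller p)
  have hT : ∀ b, π (T b) = b := fun b => (hWπ _).trans (WittVector.teichmuller_coeff_zero p b)
  let Θ : G →* R := T.comp (ex k η)
  have hΘ : ∀ g, θ (ex k⟦X⟧ η g) = Ideal.Quotient.mk _ (Θ g) := fun g => by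
    obtain ⟨r, hr⟩ := Ideal.Quotient.mk_surjective (θ (ex k⟦X⟧ η g))
    rw [← hr, Ideal.Quotient.eq, Ideal.mem_span_singleton]
    refine teich π (fun r h => by_contra fun n => h ((hπk r).2 ?_)) _ (ord_ne (ex k η) g) ?_ ?_ ?_
    · rw [← Ideal.mem_span_singleton, ← hϖ.maximalIdeal_eq]
      exact n
    · rw [← Ideal.mem_span_singleton, ← Ideal.Quotient.eq, map_pow, hr, ex_apply, ex_ps, ← map_pow,
        ← map_pow, pow_orderOf_eq_one, map_one, map_one, map_one]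
    · exact (map_pow T _ _).symm.trans (by rw [pow_orderOf_eq_one, map_one])
    · rw [hθ _ r hr.symm, ex_apply, ex_ps, constantCoeff_C]
      exact (hT _).symm
  obtain ⟨c₁, hc1, hcθ, hcπ, hcc⟩ :=
    lift (ϖ ^ N) θ constantCoeff π hθ (ex k⟦X⟧ η) Θ hΘ c₀ hcoc
  have hcR' : IsAdicComplete (Ideal.span {ϖ}) R := hϖ.maximalIdeal_eq ▸ hcR
  have hϖm : ϖ ∈ Ideal.span {ϖ} := Ideal.mem_span_singleton_self ϖ
  have hsm1 : Small (RingHom.id R) (Ideal.span {ϖ}) c₁ := fun g m hm => by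
    have h1 := congrArg (MvPolynomial.coeff m) (hcπ g)
    rw [MvPolynomial.coeff_map, MvPolynomial.coeff_map, (Ideal.mem_bot).1 (hsm g m hm)] at h1
    exact Ideal.mem_span_singleton.2 ((hπk _).1 h1)
  obtain ⟨x, α, hxm, hx1, hxe1, hαx, hαX⟩ :=
    tube _ hcR' ϖ hϖm hϖ.ne_zero M N (by omega) Θ c₁ hc1 hsm1 hcc
  have hle : Ideal.span {ϖ ^ N} ≤ Ideal.span {ϖ ^ M} :=
    Ideal.span_singleton_le_span_singleton.2 (pow_dvd_pow _ (by omega))
  let θM : k⟦X⟧ →+* R ⧸ Ideal.span {ϖ ^ M} := (Ideal.Quotient.factor hle).comp θ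
  have hθM : ∀ f r, θM f = Ideal.Quotient.mk _ r → π r = constantCoeff f := fun f r h => by
    obtain ⟨r', hr'⟩ := Ideal.Quotient.mk_surjective (θ f)
    have h1 : Ideal.Quotient.mk (Ideal.span {ϖ ^ M}) r' = Ideal.Quotient.mk _ r := by
      rw [← h]; simp [θM, ← hr']
    rw [Ideal.Quotient.eq, Ideal.mem_span_singleton] at h1
    have h2 := (hπk _).2 ((dvd_pow_self ϖ (by omega)).trans h1)
    rw [map_sub, sub_eq_zero] at h2
    rw [← h2, hθ f r' hr'.symm]
  have hθMX : θM X = Ideal.Quotient.mk _ ϖ := by simp [θM, hθX]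
  have hα1 : ∀ g, α g (MvPowerSeries.X 1) = x g := fun g => by rw [← hx1, hαx, mul_one]
  have heqv := eqv X ϖ M θM hθMX (ex k⟦X⟧ η) Θ (fun g => by simp [θM, hΘ]) c₀ x₀ α₀
    (fun g m hm => by
      rw [Ideal.mem_span_singleton, X_dvd_iff]; exact (Ideal.mem_bot).1 (hsm g m hm))
    (fun g => by
      rw [nb1, Ideal.mem_comap, Ideal.mem_span_singleton, X_dvd_iff]; exact hx0 g)
    hxe hα₀ c₁ x α (fun g => by
      rw [← Ideal.Quotient.factor_comp_mk hle, ← MvPolynomial.map_map, hcθ, MvPolynomial.map_map])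
    hxm hxe1 hα1
  let act1 : MulSemiringAction G (MvPowerSeries G R) := MulSemiringAction.compHom _ α
  have hs1 : ∀ (g : G) (b : MvPowerSeries G R), g • b = α g b := fun _ _ => rfl
  have hC1 : ∀ (g : G) (r : R), g • (MvPowerSeries.C r : MvPowerSeries G R) = MvPowerSeries.C r :=
    fun g r => (α g).commutes r
  obtain ⟨hr1, hr2, hr3⟩ := all_RED G R
  have hπϖ : π ϖ = 0 := (hπk _).2 dvd_rfl
  choose t ht hprim using fun j => prim (ex k η) ha T (Function.LeftInverse.injective hT) hζ (s j)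
  have hξ1 : ∀ j, ϖ ^ N ∣ ζ ^ t j - 1 := fun j =>
    hζ1.trans (by simpa using sub_dvd_pow_sub_pow ζ 1 (t j))
  have hprime := hr2 ϖ hϖ.prime
  have : IsDomain (MvPowerSeries G R) := NoZeroDivisors.to_isDomain _
  obtain ⟨f, U, Φ, hf, hU, hfu, hΦ, hfΦ, hsum⟩ := all_GLUE G k⟦X⟧⟦X⟧ (MvPowerSeries G R)
    (MvPowerSeries G (R ⧸ Ideal.span {ϖ ^ M})) J _ s d q β c e hPU (MvPowerSeries.C ϖ) hprime
    (fun g => hC1 g ϖ) ((all_CMP R).2.1 ϖ hcR' G) M (by omega) (by omega)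
    (MvPowerSeries.map (Ideal.Quotient.mk _))
    ((PowerSeries.toMvPowerSeries (1 : G)).toRingHom.comp (PowerSeries.map θM))
    (hr1 _).1 (fun b => by rw [(hr1 _).2, map_pow]) (fun g a b h => heqv g a b h)
    (by simp [hθMX, toMvPowerSeries_C])
    (fun a b h hb => hr3 k _ ϖ π θM 1 hπϖ hθM a b h hb)
    (fun j => MvPowerSeries.C (ζ ^ t j)) (fun g j => hC1 g _)
    (fun j => by rw [← map_pow, ht j, map_one])
    (fun j => by
      rw [← map_pow, ← map_one MvPowerSeries.C, ← map_sub]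
      exact map_dvd _ ((pow_dvd_pow _ (by omega)).trans (hξ1 j)))
  let F : G → MvPolynomial G R := fun g => MvPolynomial.C (ui Θ g) *
    (MvPolynomial.X g - MvPolynomial.C (Θ g) * MvPolynomial.X 1 - c₁ g)
  have hF : ∀ h g, MvPolynomial.C (ϖ ^ N) ∣
      F (h * g) - F h - MvPolynomial.C (ui Θ h) * MvPolynomial.rename (h * ·) (F g) :=
    fun h g => by
      refine ((dvd_neg.2 (hcc h g)).mul_left (MvPolynomial.C (ui Θ (h * g)))).trans (dvd_of_eq ?_)
      have e := congrArg (MvPolynomial.C (σ := G)) (mul_ui Θ g)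
      rw [map_mul, map_one] at e
      simp only [F, map_sub, map_mul, MvPolynomial.rename_X, MvPolynomial.rename_C, mul_one]
      linear_combination MvPolynomial.C (ui Θ h) * (MvPolynomial.C (Θ h) * MvPolynomial.X 1 +
        c₁ h - MvPolynomial.X h) * e
  let v : G →* MvPowerSeries G R := (MvPowerSeries.C : R →+* _).toMonoidHom.comp (ui Θ)
  have hFx : ∀ g, MvPolynomial.aeval x (F g) = v g * (MvPowerSeries.C ϖ ^ M * yv R g) :=
    fun g => by
      simp only [F, map_sub, map_mul, MvPolynomial.aeval_X, MvPolynomial.aeval_C, hx1]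
      rw [hxe1 g]
      change MvPowerSeries.C _ * (_ - MvPowerSeries.C _ * _ - _) = MvPowerSeries.C _ * _
      ring
  have hdv : ∀ P : MvPolynomial G R, MvPolynomial.C (ϖ ^ N) ∣ P →
      MvPowerSeries.C ϖ ^ N ∣ MvPolynomial.aeval x P := fun P hP => by
    have := map_dvd (MvPolynomial.aeval x) hP
    rwa [MvPolynomial.aeval_C, map_pow] at this
  have hae : ∀ (h : G) P, h • MvPolynomial.aeval x P =
      MvPolynomial.aeval x (MvPolynomial.rename (h * ·) P) := fun h P =>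
    main_aeval (α h) x h (hαx h) P
  clear_value F
  choose φ γ hφ1 hφ2 using fun j => tw (ui Θ) (s j) (ζ ^ t j * ui Θ (s j)) (ϖ ^ N) (hprim j)
    (pow_ne_zero _ hϖ.ne_zero) (by rw [← sub_one_mul]; exact (hξ1 j).mul_right _) F hF
  obtain ⟨ρ, hρ1, hρ⟩ := cut (MvPowerSeries.C ϖ) hprime.ne_zero (fun g => hC1 g ϖ) v
    (fun h g => hC1 h _) s (fun j => MvPowerSeries.C (ζ ^ t j)) Φ f U e M N (by omega) hf hU hfu hΦ
    hfΦ hsum (yv R) _ hFx (fun j g => MvPolynomial.aeval x (φ j g))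
    (fun j => MvPolynomial.aeval x (γ j))
    (fun h g => by
      have := hdv _ (hF h g)
      rwa [map_sub, map_sub, map_mul, MvPolynomial.aeval_C, ← hae] at this)
    (fun j g => by rw [← map_sub]; exact hdv _ (hφ1 j g))
    (fun j g => by
      rw [hφ2, map_add, map_mul, MvPolynomial.aeval_C, map_mul, hae]; rfl)
  obtain ⟨Q, jj, hQ1, hQm, hQ⟩ := all_QUO G R _ hcR' ϖ hϖm α ρ hαX hρ1 hρ
  refine ⟨R, inferInstance, inferInstance, inferInstance, inferInstance, inferInstance, π, i, jj,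
    hWinj, hWπ, hπs, hinj, ?_⟩
  refine sp (Ideal.span {ϖ}) π (fun r hr => (hπk r).2 (Ideal.mem_span_singleton.1 hr)) ϖ
    hϖm M (by omega) Θ c₁ x Q jj i hsm1 hxm hxe1 hQ1 hQm (fun g => by rw [← hQ1, ← hQ, hα1])
    (fun g => ?_) (fun g => ?_)
  · rw [hi, ← coeff_zero_eq_constantCoeff_apply, coeff_map, coeff_zero_eq_constantCoeff_apply]
    exact hx0 g
  · rw [hcπ, hi, hxe g, map_add, map_mul, map_X, map_C, ex_apply, ex_ps, constantCoeff_C,
      show π (Θ g) = _ from hT _]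
    congr 1
    simp only [hi, MvPolynomial.aeval_def, MvPolynomial.eval₂_map]
    rw [MvPolynomial.eval₂_comp_left]
    congr 1
    ext1 r
    simp

/-- The condition is sufficient. -/
theorem suff' (p : ℕ) [Fact p.Prime] (k : Type) [Field k] [IsAlgClosed k] [CharP k p] [Finite G]
    (η : G →* k) (hk : IsPGroup p η.ker) (h : ∀ H : Subgroup G, ¬ IsCyclic H → ∃ φ : H → k,
      Co0 (η.comp H.subtype) φ ∧ ∀ x : k, ∃ a : H, η a * x + φ a ≠ x) : WeakLift p k G := by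
  let : Algebra (ZMod p) k := ZMod.algebra k p
  let F := IntermediateField.adjoin (ZMod p) (Set.range η)
  have : FiniteDimensional (ZMod p) F := IntermediateField.finiteDimensional_adjoin (by
    rintro _ ⟨g, rfl⟩
    refine IsIntegral.of_pow (orderOf_pos g) ?_
    rw [← map_pow, pow_orderOf_eq_one, map_one]
    exact isIntegral_one)
  have : Finite F := Module.finite_of_finite (ZMod p)
  let η' : G →* F := η.codRestrict F fun g => IntermediateField.subset_adjoin _ _ ⟨g, rfl⟩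
  refine suff p k η' hk (coh p k η' (hk.to_le fun g hg => ?_) h)
  exact congrArg Subtype.val (MonoidHom.mem_ker.1 hg)

end Pool.Agent.P.MP_41a2b4_ag.T
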