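import Pool.Agent.P.MP_41a2b4_ag.T.D

/-! The condition is necessary; the classification. -/

set_option autoImplicit false

namespace Pool.Agent.P.MP_41a2b4_ag.T

open PowerSeries IsLocalRing W

attribute [-instance] PowerSeries.algebraPowerSeries MvPowerSeries.algebraMvPowerSeries

variable {G : Type} [Group G]

/-- First order expansion. -/
theorem lin {R A : Type} [CommRing R] [CommRing A] (I : Ideal A) (φ ψ : R⟦X⟧ →+* A) (n : ℕ)
    (hC : ∀ r, φ (C r) = ψ (C r)) (h1 : φ X ∈ I) (h2 : ψ X ∈ I) (h : φ X - ψ X ∈ I ^ n)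
    (f : R⟦X⟧) : φ f - ψ f - φ (C (coeff 1 f)) * (φ X - ψ X) ∈ I ^ (n + 1) := by
  obtain ⟨f2, e⟩ : ∃ f2 : R⟦X⟧, f = X * (X * f2 + C (coeff 1 f)) + C (constantCoeff f) := by
    refine ⟨mk fun p => coeff (p + 1) (mk fun p => coeff (p + 1) f), ?_⟩
    conv_lhs => rw [eq_X_mul_shift_add_const f,
      eq_X_mul_shift_add_const (mk fun p => coeff (p + 1) f)]
    simp
  have k := (all_EVU R A I).1 Unit φ ψ n hC (fun _ => h1) (fun _ => h2) (fun _ => h) f2
  rw [pow_succ']
  convert add_mem (Ideal.mul_mem_mul (Ideal.mul_mem_left _ (φ f2) (add_mem h1 h2)) h)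
    (Ideal.mul_mem_mul (Ideal.mul_mem_left _ (ψ X) h2) k) using 1
  generalize coeff 1 f = c1 at e ⊢
  rw [e]
  simp only [map_add, map_mul, hC]
  ring

theorem mem_X {R : Type} [CommRing R] {f : R⟦X⟧} {n : ℕ} :
    f ∈ Ideal.span {(X : R⟦X⟧)} ^ n ↔ ∀ m < n, coeff m f = 0 := by
  rw [Ideal.span_singleton_pow, Ideal.mem_span_singleton, X_pow_dvd_iff]

section lc

variable {R : Type} [CommRing R] (β : G →* (R⟦X⟧ ≃ₐ[R] R⟦X⟧)) (h0 : ∀ g, constantCoeff (β g X) = 0)

/-- The linear coefficient of an action which fixes the origin. -/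
noncomputable def lc : G →* R where
  toFun g := coeff 1 (β g X)
  map_one' := by simp
  map_mul' g h := by
    have hX : β g X ∈ Ideal.span {(X : R⟦X⟧)} := Ideal.mem_span_singleton.2 (X_dvd_iff.2 (h0 g))
    have := mem_X.1 (lin (Ideal.span {X}) (β g).toAlgHom.toRingHom (C.comp constantCoeff) 1
      (fun r => ((β g).commutes r).trans (by simp)) hX (by simp) (by simpa using hX) (β h X)) 1
      one_lt_two
    rw [show (β g).toAlgHom.toRingHom (C (coeff 1 (β h X))) = C _ from (β g).commutes _] at this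
    simp only [h0, RingHom.comp_apply, constantCoeff_X, map_zero, sub_zero, map_sub,
      coeff_C_mul] at this
    rw [map_mul, mul_comm]
    exact sub_eq_zero.1 this

theorem lc_apply (g : G) : lc β h0 g = coeff 1 (β g X) := rfl

/-- An automorphism tangent to the identity whose order is nonzero in `R` is trivial. -/
theorem rig [IsDomain R] {g : G} {n : ℕ} (hn : g ^ n = 1) (hn0 : (n : R) ≠ 0)
    (h1 : lc β h0 g = 1) : β g = 1 := by
  have hX : β g X ∈ Ideal.span {(X : R⟦X⟧)} := Ideal.mem_span_singleton.2 (X_dvd_iff.2 (h0 g))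
  have e1 : β g (∑ i ∈ Finset.range n, β (g ^ i) X) = ∑ i ∈ Finset.range n, β (g ^ i) X := by
    have := (Finset.sum_range_succ' (fun i => β (g ^ i) X) n).symm.trans
      (Finset.sum_range_succ (fun i => β (g ^ i) X) n)
    rw [hn, pow_zero, add_left_inj] at this
    rw [map_sum, ← this]
    exact Finset.sum_congr rfl fun i _ => by rw [pow_succ', map_mul]; rfl
  have e2 : coeff 1 (∑ i ∈ Finset.range n, β (g ^ i) X) = n := by
    simp only [map_sum, ← lc_apply β h0, map_pow (lc β h0), h1, one_pow]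
    simp
  have key : ∀ j, β g X - X ∈ Ideal.span {(X : R⟦X⟧)} ^ j := fun j => by
    induction j with
    | zero => simp
    | succ j ih =>
      have := lin (Ideal.span {X}) (β g).toAlgHom.toRingHom (RingHom.id _) j (β g).commutes hX
        (Ideal.mem_span_singleton_self _) ih (∑ i ∈ Finset.range n, β (g ^ i) X)
      rw [e2, show (β g).toAlgHom.toRingHom (C (n : R)) = C _ from (β g).commutes _,
        show (β g).toAlgHom.toRingHom (∑ i ∈ Finset.range n, β (g ^ i) X) = _ from e1,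
        RingHom.id_apply, sub_self, zero_sub, neg_mem_iff, mem_X] at this
      refine mem_X.2 fun m hm => ?_
      have := this m hm
      rw [coeff_C_mul] at this
      exact (mul_eq_zero.1 this).resolve_left hn0
  have e3 : β g X = X := PowerSeries.ext fun m =>
    sub_eq_zero.1 ((map_sub _ _ _).symm.trans (mem_X.1 (key (m + 1)) m m.lt_succ_self))
  exact AlgEquiv.ext fun f => DFunLike.congr_fun ((all_EVU R R⟦X⟧ (Ideal.span {X})).2.2.1
    (β g).toAlgHom.toRingHom (RingHom.id _) (sp_haus R) (β g).commutes hX e3) f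

end lc

/-- A finite group of automorphisms with a fixed point is cyclic. -/
theorem cyc_of_fix [Finite G] {R : Type} [CommRing R] [IsDomain R] [CharZero R] (m : Ideal R)
    (hm : IsAdicComplete m R) (j : G →* (R⟦X⟧ ≃ₐ[R] R⟦X⟧)) (hj : Function.Injective j) {a : R}
    (ha : a ∈ m) (ev : R⟦X⟧ →+* R) (e1 : ∀ r, ev (C r) = r) (e2 : ev X = a)
    (h : ∀ g, ev (j g X) = a) : IsCyclic G := by
  have hI : IsAdicComplete (nb1 m) R⟦X⟧ := ((all_CMP R).1 m hm).2
  obtain ⟨t1, h1⟩ := (all_EVE R R⟦X⟧ (nb1 m) hI).2.2.2 (X + C a) (by simpa [nb1] using ha)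
  obtain ⟨t2, h2⟩ := (all_EVE R R⟦X⟧ (nb1 m) hI).2.2.2 (X - C a) (by simpa [nb1] using ha)
  have aC : ∀ (φ : R⟦X⟧ →ₐ[R] R⟦X⟧) r, φ (C r) = C r := fun φ r => φ.commutes r
  have ext : ∀ φ : R⟦X⟧ →ₐ[R] R⟦X⟧, φ X = X → φ = AlgHom.id R _ := fun φ k =>
    AlgHom.coe_ringHom_injective ((all_EVU R R⟦X⟧ (nb1 m)).2.2.1 φ _ hI.toIsHausdorff
      (fun r => aC φ r) (by rw [RingHom.coe_coe, k]; simp [nb1]) k)
  let τ : R⟦X⟧ ≃ₐ[R] R⟦X⟧ := AlgEquiv.ofAlgHom t1 t2
    (ext _ (by rw [AlgHom.comp_apply, h2, map_sub, h1, aC, add_sub_cancel_right]))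
    (ext _ (by rw [AlgHom.comp_apply, h1, map_add, h2, aC, sub_add_cancel]))
  have e3 : ∀ f, constantCoeff (t1 f) = ev f := fun f => DFunLike.congr_fun
    ((all_EVU R R m).2.2.1 (constantCoeff.comp t1.toRingHom) ev hm.toIsHausdorff
      (fun r => by rw [e1]; exact (congrArg constantCoeff (aC t1 r)).trans (constantCoeff_C r))
      (by change constantCoeff (t1 X) ∈ m; simpa [h1] using ha)
      (by change constantCoeff (t1 X) = _; simp [h1, e2])) f
  let β := (MulAut.conj τ).toMonoidHom.comp j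
  have h0 : ∀ g, constantCoeff (β g X) = 0 := fun g => by
    change constantCoeff (t1 (j g (t2 X))) = 0
    rw [e3, h2, map_sub, map_sub, h, show j g (C a) = C a from (j g).commutes a, e1, sub_self]
  refine isCyclic_of_injective_ringHom (lc β h0) ((injective_iff_map_eq_one _).2 fun g hg => ?_)
  exact (injective_iff_map_eq_one β).1 ((MulAut.conj τ).injective.comp hj) g
    (rig β h0 (pow_orderOf_eq_one g) (Nat.cast_ne_zero.2 (orderOf_pos g).ne') hg)

/-- The condition is necessary. -/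
theorem nec (p : ℕ) [hp : Fact p.Prime] (k : Type) [Field k] [IsAlgClosed k] [CharP k p] [Finite G]
    (hW : WeakLift p k G) : ∃ η : G →* k, IsPGroup p η.ker ∧ ∀ H : Subgroup G, ¬ IsCyclic H →
      ∃ φ : H → k, Co0 (η.comp H.subtype) φ ∧ ∀ x : k, ∃ a : H, η a * x + φ a ≠ x := by
  classical
  obtain ⟨R, _, _, _, _, _, π, i, j, hinj, -, hπ, hi, hij⟩ := hW
  have h0 : ∀ g, constantCoeff (i g X) = 0 := fun g => by_contra fun n =>
    X_prime.not_isUnit (by
      simpa using (isUnit_iff_constantCoeff.2 (isUnit_iff_ne_zero.2 n)).map (i g).symm)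
  have hk : IsPGroup p (lc i h0).ker := fun g => by
    obtain ⟨a, m, h1, h2⟩ := Nat.exists_eq_pow_mul_and_not_dvd (orderOf_pos g.1).ne' p hp.out.ne_one
    refine ⟨a, Subtype.ext ((injective_iff_map_eq_one i).1 hi _ (rig i h0 (n := m) ?_
      (mt (CharP.cast_eq_zero_iff k p m).1 h1) (g ^ p ^ a).2))⟩
    rw [Subgroup.coe_pow, ← pow_mul, ← h2, pow_orderOf_eq_one]
  refine ⟨lc i h0, hk, fun H hH => ?_⟩
  by_cases h1 : ∀ a : H, lc i h0 a = 1
  · obtain ⟨χ, a, ha⟩ := (all_CHI p H (hk.to_le fun a ha => h1 ⟨a, ha⟩)).1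
      (not_subsingleton_iff_nontrivial.1 fun _ => hH inferInstance)
    refine ⟨fun a => ZMod.castHom (dvd_refl p) k (χ a).toAdd, fun a b => by
      simp only [map_mul, toAdd_mul, map_add, MonoidHom.comp_apply, Subgroup.coe_subtype, h1,
        one_mul], fun x => ⟨a, ?_⟩⟩
    rw [h1, one_mul, Ne, add_eq_left, _root_.map_eq_zero]
    exact ha
  obtain ⟨c, hc⟩ := not_forall.1 h1
  obtain ⟨_, hm, -⟩ := RingAux.good_of_finite p k R hinj
  have := RingAux.charZero_witt p k
  have : CharZero R := charZero_of_injective_algebraMap hinj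
  obtain ⟨ϖ, hϖ⟩ := IsDiscreteValuationRing.exists_irreducible R
  have hker : ∀ r, π r = 0 ↔ r ∈ maximalIdeal R := fun r => by
    rw [← eq_maximalIdeal (RingHom.ker_isMaximal_of_surjective π hπ), RingHom.mem_ker]
  have hX : ∀ g, PowerSeries.map π (j g X) = i g X := fun g => by rw [hij, map_X]
  have hl : ∀ g, π (coeff 1 (j g X)) = lc i h0 g := fun g => by rw [lc_apply, ← hX, coeff_map]
  have hj : Function.Injective j := (injective_iff_map_eq_one j).2 fun g hg =>
    (injective_iff_map_eq_one i).1 hi g (AlgEquiv.ext fun f => by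
      obtain ⟨f, rfl⟩ := PowerSeries.map_surjective π hπ f
      rw [← hij, hg]; rfl)
  have hE : ∀ a : R, ∃ φ : R⟦X⟧ →+* R, (∀ r, φ (C r) = r) ∧ (a ∈ maximalIdeal R → φ X = a) :=
    fun a => by
      by_cases ha : a ∈ maximalIdeal R
      · obtain ⟨φ, k1, k2⟩ := (all_EVE R R _ hm).2.1 (RingHom.id R) a ha
        exact ⟨φ, k1, fun _ => k2⟩
      · exact ⟨constantCoeff, constantCoeff_C, fun h => absurd h ha⟩
  choose ev e1 e2 using hE
  have hP : ∀ a ∈ maximalIdeal R, ∀ g, ev a (j g X) ∈ maximalIdeal R := fun a ha g =>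
    (all_EVU R R _).2.2.2.2 (ev a) (maximalIdeal R) (fun r hr => (e1 a r).symm ▸ hr)
      ((e2 a ha).symm ▸ ha) _ ((hker _).1 (by
        rw [← h0 g, ← hX, ← coeff_zero_eq_constantCoeff_apply,
          ← coeff_zero_eq_constantCoeff_apply, coeff_map]))
  have hL : ∀ a ∈ maximalIdeal R, ∀ b ∈ maximalIdeal R, ∀ n, a - b ∈ maximalIdeal R ^ n → ∀ f,
      ev a f - ev b f - coeff 1 f * (a - b) ∈ maximalIdeal R ^ (n + 1) := fun a ha b hb n h f => by
    have := lin (maximalIdeal R) (ev a) (ev b) n (fun r => by rw [e1, e1])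
      ((e2 a ha).symm ▸ ha) ((e2 b hb).symm ▸ hb) (by rwa [e2 a ha, e2 b hb]) f
    rwa [e1, e2 a ha, e2 b hb] at this
  have hM : ∀ a ∈ maximalIdeal R, ∀ h g, ev a (j (h * g) X) = ev (ev a (j h X)) (j g X) :=
    fun a ha h g => DFunLike.congr_fun ((all_EVU R R _).2.2.1
      ((ev a).comp (j h).toAlgHom.toRingHom) (ev (ev a (j h X))) hm.toIsHausdorff
      (fun r => by rw [e1]; exact (congrArg (ev a) ((j h).commutes r)).trans (e1 a r))
      (hP a ha h) (e2 _ (hP a ha h)).symm) (j g X) ▸ by rw [map_mul]; rfl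
  obtain ⟨w, hw⟩ : ∃ w, w * (1 - coeff 1 (j c X)) = 1 := IsUnit.exists_left_inv (by_contra fun n =>
    hc (by
      have := (hker _).2 n
      rw [map_sub, map_one, hl, sub_eq_zero] at this
      exact this.symm))
  obtain ⟨x, hx, hfix⟩ := (all_FIX R Unit (maximalIdeal R)
    (fun x _ => x () + w * (ev (x ()) (j c X) - x ())) fun n x y hx hy h _ => by
      convert Ideal.mul_mem_left _ w (hL _ (hx ()) _ (hy ()) n (h ()) (j c X)) using 1
      linear_combination -(x () - y ()) * hw).2 hm fun _ => by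
        simpa using Ideal.mul_mem_left _ w (hP 0 (zero_mem _) c)
  obtain ⟨a, ha, hca⟩ : ∃ a ∈ maximalIdeal R, ev a (j c X) - a = 0 := ⟨x (), hx (), by
    have := congrFun hfix ()
    linear_combination (1 - coeff 1 (j c X)) * this - (ev (x ()) (j c X) - x ()) * hw⟩
  have hn : ∃ n, ¬ ∀ h : H, ev a (j h X) - a ∈ maximalIdeal R ^ n := by_contra fun n => by
    refine hH (cyc_of_fix _ hm (j.comp H.subtype) (hj.comp H.subtype_injective) ha (ev a) (e1 a)
      (e2 a ha) fun h => sub_eq_zero.1 (hm.toIsHausdorff.haus _ fun l => ?_))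
    rw [SModEq.zero, smul_eq_mul, Ideal.mul_top]
    exact not_not.1 (not_exists.1 n l) h
  obtain ⟨n, e⟩ := Nat.exists_eq_succ_of_ne_zero (n := Nat.find hn) fun e =>
    Nat.find_spec hn (by rw [e]; simp)
  have k1 := not_not.1 (Nat.find_min hn (e ▸ n.lt_succ_self))
  have k2 := Nat.find_spec hn
  rw [e] at k2
  have hd : ∀ r, ϖ ^ n * r ∈ maximalIdeal R ^ (n + 1) ↔ π r = 0 := fun r => by
    rw [hker, hϖ.maximalIdeal_eq, Ideal.span_singleton_pow, Ideal.mem_span_singleton,
      Ideal.mem_span_singleton, pow_succ, mul_dvd_mul_iff_left (pow_ne_zero _ hϖ.ne_zero)]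
  have k3 : ∀ h : H, ∃ t, ev a (j h X) - a = ϖ ^ n * t := fun h => by
    have := k1 h
    rwa [hϖ.maximalIdeal_eq, Ideal.span_singleton_pow, Ideal.mem_span_singleton] at this
  choose t ht using k3
  obtain ⟨b, hb⟩ := not_forall.1 k2
  refine ⟨fun h => π (t h), fun h g => ?_, fun x => ?_⟩
  · have := hL _ (hP a ha h) a ha n (k1 h) (j g X)
    rw [← hM a ha, show ev a (j (h * g) X) - ev a (j g X) - coeff 1 (j g X) * (ev a (j h X) - a) =
      ϖ ^ n * (t (h * g) - t g - coeff 1 (j g X) * t h) by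
        linear_combination ht (h * g) - ht g - coeff 1 (j g X) * ht h, hd, map_sub, map_sub,
      map_mul, hl] at this
    change _ = lc i h0 g * _ + _
    linear_combination this
  · by_cases hx0 : x = 0
    · refine ⟨b, fun e => hb ?_⟩
      rw [ht, Nat.succ_eq_add_one, hd]
      simpa [hx0] using e
    · have t0 : t c = 0 := (mul_eq_zero.1 ((ht c).symm.trans hca)).resolve_left
        (pow_ne_zero _ hϖ.ne_zero)
      refine ⟨c, fun e => hc (mul_right_cancel₀ hx0 ?_)⟩
      simpa [t0] using e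

/-- The classification. -/
theorem main (p : ℕ) [Fact p.Prime] (k : Type) [Field k] [IsAlgClosed k] [CharP k p] [Finite G] :
    WeakLift p k G ↔ ∃ θ : G →* kˣ, IsPGroup p θ.ker ∧ ∀ H : Subgroup G, ¬ IsCyclic H →
      ∃ φ : H → k, (∀ a b : H, φ (a * b) = φ a + θ a * φ b) ∧
        ∀ x : k, ∃ a : H, θ a * x + φ a ≠ x := by
  constructor
  · intro h
    obtain ⟨η, h1, h2⟩ := nec p k h
    refine ⟨(ui η).toHomUnits, h1.to_le fun g hg => ?_, fun H hH => ?_⟩
    · have := mul_ui η g
      rwa [show ui η g = 1 from congrArg Units.val (MonoidHom.mem_ker.1 hg), mul_one] at this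
    · obtain ⟨φ, c1, c2⟩ := h2 H hH
      refine ⟨fun a => ui η a * φ a, fun a b => ?_, fun x => (c2 (-x)).imp fun a ha e => ha ?_⟩
      · simp only [c1 a b, Subgroup.coe_mul, map_mul, MonoidHom.coe_toHomUnits,
          MonoidHom.comp_apply, Subgroup.coe_subtype]
        linear_combination ui η a * φ a * mul_ui η b
      · simp only [MonoidHom.coe_toHomUnits] at e
        linear_combination η a * e - (x + φ a) * mul_ui η a
  · rintro ⟨θ, h1, h2⟩
    have hu := mul_ui ((Units.coeHom k).comp θ)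
    simp only [MonoidHom.comp_apply, Units.coeHom_apply] at hu
    refine suff' p k (ui ((Units.coeHom k).comp θ)) (h1.to_le fun g hg => ?_) fun H hH => ?_
    · have := hu g
      rw [MonoidHom.mem_ker.1 hg, mul_one] at this
      exact Units.ext this
    · obtain ⟨φ, c1, c2⟩ := h2 H hH
      refine ⟨fun a => ui ((Units.coeHom k).comp θ) a * φ a, fun a b => ?_,
        fun x => (c2 (-x)).imp fun a ha e => ha ?_⟩
      · simp only [c1 a b, Subgroup.coe_mul, map_mul, MonoidHom.comp_apply, Subgroup.coe_subtype]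
        linear_combination ui ((Units.coeHom k).comp θ) b * φ b * hu a
      · linear_combination (θ a : k) * e - (x + φ a) * hu a

/-- The classification, in cohomological form. -/
theorem main' (p : ℕ) [Fact p.Prime] (k : Type) [Field k] [IsAlgClosed k] [CharP k p] (G : Type)
    [Group G] [Finite G] :
    WeakLift p k G ↔ ∃ θ : G →* kˣ, IsPGroup p θ.ker ∧
      ∀ H : Subgroup G, ¬ IsCyclic H → ¬ H ≤ θ.ker →
        ∃ φ : H → k, (∀ a b : H, φ (a * b) = φ a + θ a * φ b) ∧
          ¬ ∃ x : k, ∀ a : H, φ a = θ a * x - x := by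
  refine (main p k).trans (exists_congr fun θ => and_congr_right fun hk => forall_congr' fun H =>
    forall_congr' fun hH => ⟨fun ⟨φ, c1, c2⟩ _ => ⟨φ, c1, fun ⟨x, hx⟩ => ?_⟩, fun h => ?_⟩)
  · obtain ⟨a, ha⟩ := c2 (-x)
    exact ha (by rw [hx a]; ring)
  · by_cases h1 : H ≤ θ.ker
    · have h2 : ∀ a : H, θ a = 1 := fun a => h1 a.2
      obtain ⟨χ, a, ha⟩ := (all_CHI p H (hk.to_le h1)).1
        (not_subsingleton_iff_nontrivial.1 fun _ => hH inferInstance)
      refine ⟨fun a => ZMod.castHom (dvd_refl p) k (χ a).toAdd, fun a b => by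
        simp only [map_mul, toAdd_mul, map_add, h2, Units.val_one, one_mul], fun x => ⟨a, ?_⟩⟩
      rw [h2, Units.val_one, one_mul, Ne, add_eq_left, _root_.map_eq_zero]
      exact ha
    · obtain ⟨φ, c1, c2⟩ := h h1
      refine ⟨φ, c1, fun x => by_contra fun n => c2 ⟨-x, fun a => ?_⟩⟩
      have := not_not.1 (not_exists.1 n a)
      linear_combination this

end Pool.Agent.P.MP_41a2b4_ag.T
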